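import Pool.Agent.SL13.Def

/-! count_fix: tuples with a given class function. -/

namespace Pool.Agent.SL13

open Finset

/-- the roots -/
def Wt (n t : ℕ) : Finset ℕ := (Icc 1 n).filter (fun r => t * r ^ 2 ≤ n)

theorem card_Wt (n t : ℕ) (ht : 1 ≤ t) : ((Wt n t).card : ℝ) ≤ Real.sqrt ((n : ℝ) / t) := by
  have ht0 : (0 : ℝ) < t := by exact_mod_cast ht
  have h1 : Wt n t ⊆ Icc 1 ⌊Real.sqrt ((n : ℝ) / t)⌋₊ := by
    intro r hr
    rw [Wt, mem_filter, mem_Icc] at hr
    rw [mem_Icc]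
    refine ⟨hr.1.1, Nat.le_floor ?_⟩
    refine Real.le_sqrt_of_sq_le ?_
    rw [le_div_iff₀ ht0]
    have : (t : ℝ) * (r : ℝ) ^ 2 ≤ n := by exact_mod_cast hr.2
    linarith
  have h2 := card_le_card h1
  rw [Nat.card_Icc, Nat.add_sub_cancel] at h2
  calc ((Wt n t).card : ℝ) ≤ (⌊Real.sqrt ((n : ℝ) / t)⌋₊ : ℝ) := by exact_mod_cast h2
    _ ≤ _ := Nat.floor_le (Real.sqrt_nonneg _)

theorem sum_inv_le (n : ℕ) (hn : 1 ≤ n) : ∑ x ∈ Icc 1 n, (1 / (x : ℝ)) ≤ 1 + Real.log n := by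
  have h := harmonic_le_one_add_log n
  have e : ((harmonic n : ℚ) : ℝ) = ∑ x ∈ Icc 1 n, (1 / (x : ℝ)) := by
    rw [harmonic_eq_sum_Icc]
    push_cast
    simp
  rw [← e]
  exact h

theorem factor_le (n g : ℕ) (hn : 1 ≤ n) :
    ∑ x ∈ (if g ≤ 1 then {1} else Icc 1 n : Finset ℕ), Real.sqrt ((n : ℝ) / x) ^ g ≤
      Real.sqrt n ^ g * (1 + Real.log n) := by
  have hn1 : (1 : ℝ) ≤ n := by exact_mod_cast hn
  have hlog : 0 ≤ Real.log n := Real.log_nonneg hn1
  have hs : 0 ≤ Real.sqrt n ^ g := by positivity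
  split_ifs with h
  · rw [sum_singleton, Nat.cast_one, div_one]
    nlinarith
  · have h2 : 2 ≤ g := by omega
    have h3 : ∀ x ∈ Icc 1 n, Real.sqrt ((n : ℝ) / x) ^ g ≤ Real.sqrt n ^ g * (1 / (x : ℝ)) := by
      intro x hx
      have hx1 : (1 : ℝ) ≤ x := by exact_mod_cast (mem_Icc.1 hx).1
      have hx0 : (0 : ℝ) < x := by linarith
      rw [Real.sqrt_div (by linarith), div_pow, div_eq_mul_one_div]
      refine mul_le_mul_of_nonneg_left ?_ hs
      refine one_div_le_one_div_of_le hx0 ?_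
      calc (x : ℝ) = Real.sqrt x ^ 2 := (Real.sq_sqrt hx0.le).symm
        _ ≤ Real.sqrt x ^ g := pow_le_pow_right₀ (Real.one_le_sqrt.2 hx1) h2
    calc ∑ x ∈ Icc 1 n, Real.sqrt ((n : ℝ) / x) ^ g
        ≤ ∑ x ∈ Icc 1 n, Real.sqrt n ^ g * (1 / (x : ℝ)) := sum_le_sum h3
      _ = Real.sqrt n ^ g * ∑ x ∈ Icc 1 n, (1 / (x : ℝ)) := by rw [mul_sum]
      _ ≤ _ := mul_le_mul_of_nonneg_left (sum_inv_le n hn) hs

open Classical in
theorem count_fix_S13 {ι : Type} [Fintype ι] (c : ι → ι) (n : ℕ) (hn : 1 ≤ n) :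
    (((Fintype.piFinset (fun _ : ι => Finset.Icc 1 n)).filter (fun a =>
      (∀ i, sqp (a i) = sqp (a (c i))) ∧
      ∀ v, (Finset.univ.filter (fun i => c i = v)).card = 1 → sqp (a v) = 1)).card : ℝ)
      ≤ Real.sqrt n ^ Fintype.card ι * (1 + Real.log n) ^ Fintype.card ι := by
  set g : ι → ℕ := fun v => (univ.filter (fun i => c i = v)).card with hg
  have hgc : ∀ i, 1 ≤ g (c i) := by
    intro i
    rw [hg, Nat.one_le_iff_ne_zero, Ne, card_eq_zero, filter_eq_empty_iff]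
    intro h
    exact h (mem_univ i) rfl
  let T : ι → Finset ℕ := fun v => if g v ≤ 1 then {1} else Icc 1 n
  let Om : Finset ((_ : ι → ℕ) × (ι → ℕ)) :=
    (Fintype.piFinset T).sigma (fun t => Fintype.piFinset (fun i => Wt n (t (c i))))
  choose rt hrt using fun a : ℕ => (sqp_spec a)
  let F : (ι → ℕ) → ((_ : ι → ℕ) × (ι → ℕ)) := fun a =>
    ⟨fun v => if g v ≤ 1 then 1 else sqp (a v), fun i => rt (a i)⟩
  set A := (Fintype.piFinset (fun _ : ι => Finset.Icc 1 n)).filter (fun a =>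
      (∀ i, sqp (a i) = sqp (a (c i))) ∧
      ∀ v, (Finset.univ.filter (fun i => c i = v)).card = 1 → sqp (a v) = 1) with hA
  have hkey : ∀ a ∈ A, ∀ i, (if g (c i) ≤ 1 then 1 else sqp (a (c i))) = sqp (a i) := by
    intro a ha i
    rw [hA, mem_filter] at ha
    have h1 := ha.2.1 i
    split_ifs with h
    · have h2 : g (c i) = 1 := le_antisymm h (hgc i)
      rw [h1, ha.2.2 (c i) h2]
    · exact h1.symm
  have hpos : ∀ a ∈ A, ∀ i, 1 ≤ a i ∧ a i ≤ n := by
    intro a ha i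
    rw [hA, mem_filter, Fintype.mem_piFinset] at ha
    exact mem_Icc.1 (ha.1 i)
  have hmap : ∀ a ∈ A, F a ∈ Om := by
    intro a ha
    rw [mem_sigma, Fintype.mem_piFinset, Fintype.mem_piFinset]
    refine ⟨fun v => ?_, fun i => ?_⟩
    · simp only [F, T]
      split_ifs with h
      · exact mem_singleton_self 1
      · obtain ⟨h1, h2⟩ := hpos a ha v
        obtain ⟨h3, h4⟩ := hrt (a v)
        rw [mem_Icc]
        have h5 : sqp (a v) ≠ 0 := fun h0 => by rw [h0, mul_zero] at h3; omega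
        have h6 : sqp (a v) ∣ a v := ⟨rt (a v) ^ 2, by rw [mul_comm]; exact h3.symm⟩
        exact ⟨Nat.one_le_iff_ne_zero.2 h5, (Nat.le_of_dvd (by omega) h6).trans h2⟩
    · simp only [F]
      rw [hkey a ha i, Wt, mem_filter, mem_Icc]
      obtain ⟨h1, h2⟩ := hpos a ha i
      obtain ⟨h3, h4⟩ := hrt (a i)
      have h5 : rt (a i) ≠ 0 := fun h0 => by
        rw [h0] at h3
        simp at h3
        omega
      have h6 : rt (a i) ∣ a i := by
        refine ⟨rt (a i) * sqp (a i), ?_⟩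
        rw [← mul_assoc, ← sq]
        exact h3.symm
      refine ⟨⟨Nat.one_le_iff_ne_zero.2 h5, (Nat.le_of_dvd (by omega) h6).trans h2⟩, ?_⟩
      rw [mul_comm, h3]
      exact h2
  have hinj : Set.InjOn F A := by
    intro a ha b hb hab
    have ha' : a ∈ A := ha
    have hb' : b ∈ A := hb
    funext i
    have h1 := congrArg (fun z : ((_ : ι → ℕ) × (ι → ℕ)) => z.1 (c i)) hab
    have h2 := congrArg (fun z : ((_ : ι → ℕ) × (ι → ℕ)) => z.2 i) hab
    simp only [F] at h1 h2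
    rw [hkey a ha' i, hkey b hb' i] at h1
    rw [← (hrt (a i)).1, ← (hrt (b i)).1, h1, h2]
  have hcard : (A.card : ℝ) ≤ Om.card := by
    exact_mod_cast card_le_card_of_injOn F (fun a ha => hmap a ha) hinj
  have hT1 : ∀ t ∈ Fintype.piFinset T, ∀ v, 1 ≤ t v := by
    intro t ht v
    have h := Fintype.mem_piFinset.1 ht v
    simp only [T] at h
    split_ifs at h with h0
    · rw [mem_singleton] at h
      omega
    · exact (mem_Icc.1 h).1
  have hn1 : (1 : ℝ) ≤ n := by exact_mod_cast hn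
  have hlog : 0 ≤ Real.log n := Real.log_nonneg hn1
  have hfib : ∀ f : ι → ℝ, ∏ i, f (c i) = ∏ v, f v ^ g v := by
    intro f
    rw [← Finset.prod_fiberwise_of_maps_to (s := univ) (t := univ) (g := c)
      (fun i _ => mem_univ _)]
    refine prod_congr rfl fun v _ => ?_
    rw [prod_congr rfl (g := fun _ => f v)]
    · rw [prod_const]
    · intro i hi
      rw [(mem_filter.1 hi).2]
  calc (A.card : ℝ) ≤ Om.card := hcard
    _ = ∑ t ∈ Fintype.piFinset T, ∏ i, ((Wt n (t (c i))).card : ℝ) := by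
        rw [card_sigma]
        push_cast
        refine sum_congr rfl fun t _ => ?_
        rw [Fintype.card_piFinset]
        push_cast
        rfl
    _ ≤ ∑ t ∈ Fintype.piFinset T, ∏ i, Real.sqrt ((n : ℝ) / t (c i)) := by
        refine sum_le_sum fun t ht => prod_le_prod (fun i _ => Nat.cast_nonneg _) fun i _ => ?_
        exact card_Wt n _ (hT1 t ht _)
    _ = ∑ t ∈ Fintype.piFinset T, ∏ v, Real.sqrt ((n : ℝ) / t v) ^ g v := by
        refine sum_congr rfl fun t _ => ?_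
        exact hfib (fun v => Real.sqrt ((n : ℝ) / t v))
    _ = ∏ v, ∑ x ∈ T v, Real.sqrt ((n : ℝ) / x) ^ g v := by
        rw [Finset.prod_univ_sum]
    _ ≤ ∏ v, (Real.sqrt n ^ g v * (1 + Real.log n)) := by
        refine prod_le_prod (fun v _ => sum_nonneg fun x _ => by positivity) fun v _ => ?_
        exact factor_le n (g v) hn
    _ = Real.sqrt n ^ Fintype.card ι * (1 + Real.log n) ^ Fintype.card ι := by
        rw [prod_mul_distrib, prod_const, card_univ, ← hfib (fun _ => Real.sqrt n), prod_const,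
          card_univ]

end Pool.Agent.SL13
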