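import Pool.Agent.SL13.Def

/-! Squarefree parts and squares. -/

namespace Pool.Agent.SL13.S83

open Pool.Agent.SL13

theorem sq_div {x y c : ℕ} (hx : x ≠ 0) (h : x ^ 2 * y = c * c) : ∃ d, y = d * d := by
  have h1 : x ^ 2 ∣ c ^ 2 := ⟨y, by rw [h, sq]⟩
  have h2 : x ∣ c := (Nat.pow_dvd_pow_iff (by norm_num)).1 h1
  obtain ⟨d, rfl⟩ := h2
  refine ⟨d, ?_⟩
  have h3 : x ^ 2 * y = x ^ 2 * (d * d) := by rw [h]; ring
  exact Nat.eq_of_mul_eq_mul_left (by positivity) h3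

theorem eq_of_sqf {p q c : ℕ} (hp : Squarefree p) (hq : Squarefree q) (h : p * q = c * c) :
    p = q := by
  have hp0 : p ≠ 0 := hp.ne_zero
  have h1 : p ∣ c ^ 2 := ⟨q, by rw [h, sq]⟩
  have h2 : p ∣ c := (hp.dvd_pow_iff_dvd (by norm_num)).1 h1
  obtain ⟨e, rfl⟩ := h2
  have h3 : p * q = p * (e * e * p) := by rw [h]; ring
  have h4 : q = e * e * p := Nat.eq_of_mul_eq_mul_left (Nat.pos_of_ne_zero hp0) h3
  have h5 : IsUnit e := hq e ⟨p, h4⟩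
  have h6 : e = 1 := Nat.isUnit_iff.1 h5
  rw [h4, h6]
  ring

theorem sqp_eq {a b : ℕ} (ha : 1 ≤ a) (hb : 1 ≤ b) (h : IsSquare (a * b)) : sqp a = sqp b := by
  obtain ⟨r, hr, hp⟩ := sqp_spec a
  obtain ⟨s, hs, hq⟩ := sqp_spec b
  obtain ⟨c, hc⟩ := h
  have hr0 : r ≠ 0 := by
    rintro rfl
    rw [zero_pow (by norm_num), zero_mul] at hr
    omega
  have hs0 : s ≠ 0 := by
    rintro rfl
    rw [zero_pow (by norm_num), zero_mul] at hs
    omega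
  have h1 : (r * s) ^ 2 * (sqp a * sqp b) = c * c := by
    rw [← hc]
    calc (r * s) ^ 2 * (sqp a * sqp b) = (r ^ 2 * sqp a) * (s ^ 2 * sqp b) := by ring
      _ = a * b := by rw [hr, hs]
  obtain ⟨d, hd⟩ := sq_div (mul_ne_zero hr0 hs0) h1
  exact eq_of_sqf hp hq hd

theorem sqp_one {a : ℕ} (ha : 1 ≤ a) (h : IsSquare a) : sqp a = 1 := by
  have h1 : sqp a = sqp 1 := sqp_eq ha le_rfl (by rw [mul_one]; exact h)
  obtain ⟨r, hr, _⟩ := sqp_spec 1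
  rw [h1]
  exact Nat.eq_one_of_mul_eq_one_left hr

end Pool.Agent.SL13.S83
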