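import Pool.Agent.SL13.Def
import Pool.Agent.SL13.SqpS83
import Pool.Agent.SL13.CountFixS13

/-! CountA: tuples with a given class function.

sqp: every a >= 1 is sqp a * r^2 with sqp a squarefree (choose it with Nat.sq_mul_squarefree);
sqp_eq: if a b is a square (a, b >= 1) then sqp a = sqp b; if a is a square then sqp a = 1
(the product of two squarefree numbers is a square only if they are equal: compare factorizations,
each exponent is 0 or 1 and the sum is even).
count_fix: c : ι -> ι, g v = number of i with c i = v. The number of tuples a in [1,n]^ι with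
sqp (a i) = sqp (a (c i)) for all i, and sqp (a (c i)) = 1 whenever g (c i) <= 1, is at most
prod_v Q v, Q v = sum over t in T v of (w t)^(g v), T v = {1} if g v <= 1, T v = [1,n] otherwise,
w t = number of r >= 1 with t r^2 <= n, <= sqrt (n/t). (The tuple is determined by t v = sqp (a v)
for v in the range of c with g v >= 2, t v = 1 otherwise, and by the r i with a i = t (c i) (r i)^2.)
Q v = 1 if g v = 0, <= sqrt n if g v = 1, <= sum_t (n/t)^(g/2) <= n^(g/2) sum_t 1/t
<= n^(g/2) (1 + log n) if g v >= 2. Product: (sqrt n)^k (1 + log n)^k, k = card ι, since the g v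
have sum k. -/

namespace Pool.Agent.SL13

theorem sqp_eq {a b : ℕ} (ha : 1 ≤ a) (hb : 1 ≤ b) (h : IsSquare (a * b)) : sqp a = sqp b :=
  S83.sqp_eq ha hb h

theorem sqp_one {a : ℕ} (ha : 1 ≤ a) (h : IsSquare a) : sqp a = 1 :=
  S83.sqp_one ha h

open Classical in
theorem count_fix {ι : Type} [Fintype ι] (c : ι → ι) (n : ℕ) (hn : 1 ≤ n) :
    (((Fintype.piFinset (fun _ : ι => Finset.Icc 1 n)).filter (fun a =>
      (∀ i, sqp (a i) = sqp (a (c i))) ∧
      ∀ v, (Finset.univ.filter (fun i => c i = v)).card = 1 → sqp (a v) = 1)).card : ℝ)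
      ≤ Real.sqrt n ^ Fintype.card ι * (1 + Real.log n) ^ Fintype.card ι := by
  exact count_fix_S13 c n hn

end Pool.Agent.SL13
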