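import Pool.Agent.SL13.CountA

/-! CountB: the number of tuples with property (star).

Proof. For a with Star a define c i = rep (sqp (a i)) where rep t is some index j with
sqp (a j) = t, if there is one (Function.invFun or Classical.choose). Then sqp (a i) = sqp (a (c i)),
and if exactly one index i has c i = v then v = c i and sqp (a v) = sqp (a i); c j = c i for all j with
sqp (a j) = sqp (a i), so i is the only index of its class, so by Star (and sqp_eq) a i is a square and
sqp (a v) = sqp (a i) = 1 (sqp_one). So the tuple is counted by count_fix for this c; there are k^k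
functions c. -/

namespace Pool.Agent.SL13

open Classical in
theorem count_star {ι : Type} [Fintype ι] (n : ℕ) (hn : 1 ≤ n) :
    (((Fintype.piFinset (fun _ : ι => Finset.Icc 1 n)).filter (fun a => Star a)).card : ℝ)
      ≤ (Fintype.card ι : ℝ) ^ Fintype.card ι *
        (Real.sqrt n ^ Fintype.card ι * (1 + Real.log n) ^ Fintype.card ι) := by
  set F : (ι → ι) → Finset (ι → ℕ) := fun c =>
    (Fintype.piFinset (fun _ : ι => Finset.Icc 1 n)).filter (fun a =>
      (∀ i, sqp (a i) = sqp (a (c i))) ∧
      ∀ v, (Finset.univ.filter (fun i => c i = v)).card = 1 → sqp (a v) = 1) with hF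
  have hsub : ((Fintype.piFinset (fun _ : ι => Finset.Icc 1 n)).filter (fun a => Star a)) ⊆
      (Finset.univ : Finset (ι → ι)).biUnion F := by
    intro a ha
    rw [Finset.mem_filter] at ha
    obtain ⟨ha1, ha2⟩ := ha
    have ha1' : ∀ i, 1 ≤ a i := fun i => (Finset.mem_Icc.1 (Fintype.mem_piFinset.1 ha1 i)).1
    let st : Setoid ι := Setoid.ker (fun i => sqp (a i))
    let c : ι → ι := fun i => (Quotient.mk st i).out
    have hc : ∀ i, sqp (a (c i)) = sqp (a i) := fun i => Quotient.mk_out (s := st) i
    have hcc : ∀ i j, sqp (a i) = sqp (a j) → c i = c j := fun i j hij => by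
      have h1 : Quotient.mk st i = Quotient.mk st j := Quotient.sound hij
      show (Quotient.mk st i).out = (Quotient.mk st j).out
      rw [h1]
    rw [Finset.mem_biUnion]
    refine ⟨c, Finset.mem_univ _, ?_⟩
    rw [hF]
    simp only [Finset.mem_filter]
    refine ⟨ha1, fun i => (hc i).symm, fun v hv => ?_⟩
    obtain ⟨i, hi⟩ := Finset.card_eq_one.1 hv
    have hiv : c i = v := by
      have : i ∈ Finset.univ.filter (fun i => c i = v) := by
        rw [hi]; exact Finset.mem_singleton_self _
      exact (Finset.mem_filter.1 this).2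
    have huniq : ∀ j, c j = v → j = i := fun j hj => by
      have : j ∈ Finset.univ.filter (fun i => c i = v) :=
        Finset.mem_filter.2 ⟨Finset.mem_univ _, hj⟩
      rw [hi] at this
      exact Finset.mem_singleton.1 this
    have hval : sqp (a v) = sqp (a i) := by rw [← hiv]; exact hc i
    rw [hval]
    rcases ha2 i with h | ⟨j, hji, hj⟩
    · exact sqp_one (ha1' i) h
    · exfalso
      have h1 := sqp_eq (ha1' i) (ha1' j) hj
      have h2 := hcc i j h1
      exact hji (huniq j (h2.symm.trans hiv))
  have h1 : (((Fintype.piFinset (fun _ : ι => Finset.Icc 1 n)).filter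
      (fun a => Star a)).card : ℝ) ≤ ((∑ c : ι → ι, (F c).card : ℕ) : ℝ) := by
    exact_mod_cast (Finset.card_le_card hsub).trans Finset.card_biUnion_le
  refine h1.trans ?_
  rw [Nat.cast_sum]
  refine (Finset.sum_le_sum (fun c _ => count_fix c n hn)).trans ?_
  rw [Finset.sum_const, nsmul_eq_mul, Finset.card_univ, Fintype.card_fun, Nat.cast_pow]

end Pool.Agent.SL13
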