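import Mathlib

/-!
SL13, CountA: the number of the tuples with a given class function.
-/

set_option autoImplicit false

namespace Pool.Agent.SL13.S78

open Finset

/-- the `r` with `t r ^ 2 ≤ n` -/
def RR (n t : ℕ) : Finset ℕ := (Finset.Icc 1 n).filter (fun r => t * r ^ 2 ≤ n)

theorem card_RR (n t : ℕ) (ht : 1 ≤ t) : ((RR n t).card : ℝ) ≤ Real.sqrt n / Real.sqrt t := by
  have h1 : RR n t ⊆ Finset.Icc 1 (Nat.sqrt (n / t)) := by
    intro r hr
    rw [RR, Finset.mem_filter, Finset.mem_Icc] at hr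
    rw [Finset.mem_Icc]
    refine ⟨hr.1.1, ?_⟩
    rw [Nat.le_sqrt', Nat.le_div_iff_mul_le (by omega), mul_comm]
    exact hr.2
  have h2 : (RR n t).card ≤ Nat.sqrt (n / t) := by
    refine (Finset.card_le_card h1).trans ?_
    simp
  have h3 : ((Nat.sqrt (n / t) : ℕ) : ℝ) ≤ Real.sqrt ((n / t : ℕ) : ℝ) := Real.nat_sqrt_le_real_sqrt
  have h4 : ((n / t : ℕ) : ℝ) ≤ (n : ℝ) / t := Nat.cast_div_le
  calc ((RR n t).card : ℝ) ≤ (Nat.sqrt (n / t) : ℕ) := by exact_mod_cast h2
    _ ≤ Real.sqrt ((n / t : ℕ) : ℝ) := h3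
    _ ≤ Real.sqrt ((n : ℝ) / t) := Real.sqrt_le_sqrt h4
    _ = Real.sqrt n / Real.sqrt t := Real.sqrt_div (by positivity) _

/-- the factor for one class -/
theorem factor (n g : ℕ) (hn : 1 ≤ n) :
    ∑ t ∈ (if g ≤ 1 then ({1} : Finset ℕ) else Finset.Icc 1 n), ((RR n t).card : ℝ) ^ g ≤
      (Real.sqrt n * (1 + Real.log n)) ^ g := by
  have hn1 : (1 : ℝ) ≤ n := by exact_mod_cast hn
  have hlog : 0 ≤ Real.log n := Real.log_nonneg hn1
  have hs : 0 ≤ Real.sqrt n := Real.sqrt_nonneg _
  split_ifs with hg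
  · rw [Finset.sum_singleton]
    refine pow_le_pow_left₀ (by positivity) ?_ g
    have h1 := card_RR n 1 le_rfl
    rw [Nat.cast_one, Real.sqrt_one, div_one] at h1
    nlinarith [mul_nonneg hs hlog]
  · push Not at hg
    rw [mul_pow]
    have h1 : ∀ t ∈ Finset.Icc 1 n, ((RR n t).card : ℝ) ^ g ≤ Real.sqrt n ^ g * (1 / (t : ℝ)) := by
      intro t ht
      rw [Finset.mem_Icc] at ht
      have ht1 : (1 : ℝ) ≤ t := by exact_mod_cast ht.1
      have hst : 1 ≤ Real.sqrt t := Real.one_le_sqrt.2 ht1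
      have h2 := card_RR n t ht.1
      have h3 : ((RR n t).card : ℝ) ^ g ≤ (Real.sqrt n / Real.sqrt t) ^ g :=
        pow_le_pow_left₀ (by positivity) h2 g
      refine h3.trans ?_
      rw [div_pow, div_eq_mul_one_div]
      refine mul_le_mul_of_nonneg_left ?_ (by positivity)
      refine div_le_div_of_nonneg_left (by norm_num) (by linarith) ?_
      calc (t : ℝ) = Real.sqrt t ^ 2 := (Real.sq_sqrt (by linarith)).symm
        _ ≤ Real.sqrt t ^ g := pow_le_pow_right₀ hst hg
    refine (Finset.sum_le_sum h1).trans ?_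
    rw [← Finset.mul_sum]
    refine mul_le_mul_of_nonneg_left ?_ (by positivity)
    have h4 : ∑ t ∈ Finset.Icc 1 n, 1 / (t : ℝ) ≤ 1 + Real.log n := by
      have h5 : ∑ t ∈ Finset.Icc 1 n, 1 / (t : ℝ) = (harmonic n : ℝ) := by
        rw [harmonic_eq_sum_Icc]
        push_cast
        exact Finset.sum_congr rfl fun i _ => one_div _
      rw [h5]
      exact harmonic_le_one_add_log n
    refine h4.trans ?_
    exact le_self_pow₀ (by linarith) (by omega)

open Classical in
theorem count_fix {ι : Type} [Fintype ι] (sqp : ℕ → ℕ)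
    (spec : ∀ a : ℕ, ∃ r : ℕ, r ^ 2 * sqp a = a) (c : ι → ι) (n : ℕ) (hn : 1 ≤ n) :
    (((Fintype.piFinset (fun _ : ι => Finset.Icc 1 n)).filter (fun a =>
      (∀ i, sqp (a i) = sqp (a (c i))) ∧
      ∀ v, (Finset.univ.filter (fun i => c i = v)).card = 1 → sqp (a v) = 1)).card : ℝ)
      ≤ Real.sqrt n ^ Fintype.card ι * (1 + Real.log n) ^ Fintype.card ι := by
  set g : ι → ℕ := fun v => (Finset.univ.filter (fun i => c i = v)).card with hg
  set T : ι → Finset ℕ := fun v => if g v ≤ 1 then ({1} : Finset ℕ) else Finset.Icc 1 n with hT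
  have hsub : ((Fintype.piFinset (fun _ : ι => Finset.Icc 1 n)).filter (fun a =>
      (∀ i, sqp (a i) = sqp (a (c i))) ∧
      ∀ v, (Finset.univ.filter (fun i => c i = v)).card = 1 → sqp (a v) = 1)) ⊆
      (Fintype.piFinset T).biUnion (fun t =>
        (Fintype.piFinset (fun i => RR n (t (c i)))).image (fun r i => t (c i) * r i ^ 2)) := by
    intro a ha
    rw [Finset.mem_filter, Fintype.mem_piFinset] at ha
    obtain ⟨ha, h1, h2⟩ := ha
    rw [Finset.mem_biUnion]
    -- the squarefree parts lie in the interval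
    have hsq : ∀ i, 1 ≤ sqp (a i) ∧ sqp (a i) ≤ n := by
      intro i
      obtain ⟨r, hr⟩ := spec (a i)
      have hi := Finset.mem_Icc.1 (ha i)
      have hr0 : r ≠ 0 := by
        rintro rfl
        rw [← hr] at hi
        simp at hi
      have hs0 : sqp (a i) ≠ 0 := by
        intro h0
        rw [h0, mul_zero] at hr
        omega
      refine ⟨Nat.one_le_iff_ne_zero.2 hs0, ?_⟩
      have : 1 ≤ r ^ 2 := Nat.one_le_pow _ _ (Nat.one_le_iff_ne_zero.2 hr0)
      nlinarith
    refine ⟨fun v => if g v ≤ 1 then 1 else sqp (a v), ?_, ?_⟩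
    · rw [Fintype.mem_piFinset]
      intro v
      simp only [hT]
      split_ifs with hv
      · simp
      · exact Finset.mem_Icc.2 (hsq v)
    · rw [Finset.mem_image]
      have hti : ∀ i, (if g (c i) ≤ 1 then 1 else sqp (a (c i))) = sqp (a i) := by
        intro i
        split_ifs with hv
        · have h3 : g (c i) ≠ 0 := by
            rw [hg]
            exact Finset.card_ne_zero.2 ⟨i, by simp⟩
          have h4 : g (c i) = 1 := by omega
          rw [h1 i, h2 (c i) h4]
        · exact (h1 i).symm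
      choose r hr using fun i => spec (a i)
      refine ⟨r, ?_, ?_⟩
      · rw [Fintype.mem_piFinset]
        intro i
        have hi := Finset.mem_Icc.1 (ha i)
        show r i ∈ RR n (if g (c i) ≤ 1 then 1 else sqp (a (c i)))
        rw [hti i, RR, Finset.mem_filter, Finset.mem_Icc]
        have hr0 : r i ≠ 0 := by
          intro h0
          have h3 := hr i
          rw [h0] at h3
          simp at h3
          omega
        have h3 : sqp (a i) * r i ^ 2 ≤ n := by
          rw [mul_comm, hr i]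
          exact hi.2
        refine ⟨⟨Nat.one_le_iff_ne_zero.2 hr0, ?_⟩, h3⟩
        have h5 := (hsq i).1
        have h6 : r i ≤ r i ^ 2 := Nat.le_self_pow (by norm_num) _
        nlinarith
      · funext i
        show (if g (c i) ≤ 1 then 1 else sqp (a (c i))) * r i ^ 2 = a i
        rw [hti i, mul_comm]
        exact hr i
  have h1 : (((Fintype.piFinset (fun _ : ι => Finset.Icc 1 n)).filter (fun a =>
      (∀ i, sqp (a i) = sqp (a (c i))) ∧
      ∀ v, (Finset.univ.filter (fun i => c i = v)).card = 1 → sqp (a v) = 1)).card : ℕ) ≤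
      ∑ t ∈ Fintype.piFinset T, ∏ i, (RR n (t (c i))).card := by
    refine (Finset.card_le_card hsub).trans (Finset.card_biUnion_le.trans ?_)
    refine Finset.sum_le_sum fun t _ => Finset.card_image_le.trans ?_
    rw [Fintype.card_piFinset]
  have h2 : ∀ t : ι → ℕ, ∏ i, ((RR n (t (c i))).card : ℝ) = ∏ v, ((RR n (t v)).card : ℝ) ^ g v := by
    intro t
    rw [← Finset.prod_fiberwise Finset.univ c]
    refine Finset.prod_congr rfl fun v _ => ?_
    rw [Finset.prod_congr rfl (g := fun _ => ((RR n (t v)).card : ℝ)) (fun i hi => by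
      rw [(Finset.mem_filter.1 hi).2]), Finset.prod_const]
  have h3 : (∑ t ∈ Fintype.piFinset T, ∏ i, ((RR n (t (c i))).card : ℝ))
      = ∏ v, ∑ t ∈ T v, ((RR n t).card : ℝ) ^ g v := by
    rw [Finset.prod_univ_sum]
    exact Finset.sum_congr rfl fun t _ => h2 t
  have h4 : ∏ v, ∑ t ∈ T v, ((RR n t).card : ℝ) ^ g v ≤
      ∏ v, (Real.sqrt n * (1 + Real.log n)) ^ g v := by
    refine Finset.prod_le_prod (fun v _ => Finset.sum_nonneg fun t _ => by positivity)
      fun v _ => ?_
    exact factor n (g v) hn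
  have h5 : ∏ v, (Real.sqrt n * (1 + Real.log n)) ^ g v
      = Real.sqrt n ^ Fintype.card ι * (1 + Real.log n) ^ Fintype.card ι := by
    rw [Finset.prod_pow_eq_pow_sum, ← mul_pow]
    congr 1
    have h6 := Finset.card_eq_sum_card_fiberwise (f := c) (s := (Finset.univ : Finset ι))
      (t := Finset.univ) (fun i _ => Finset.mem_coe.2 (Finset.mem_univ _))
    rw [Finset.card_univ] at h6
    exact h6.symm
  calc (((Fintype.piFinset (fun _ : ι => Finset.Icc 1 n)).filter (fun a =>
      (∀ i, sqp (a i) = sqp (a (c i))) ∧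
      ∀ v, (Finset.univ.filter (fun i => c i = v)).card = 1 → sqp (a v) = 1)).card : ℝ)
      ≤ ((∑ t ∈ Fintype.piFinset T, ∏ i, (RR n (t (c i))).card : ℕ) : ℝ) := by
        exact_mod_cast h1
    _ = ∑ t ∈ Fintype.piFinset T, ∏ i, ((RR n (t (c i))).card : ℝ) := by
        push_cast
        rfl
    _ ≤ _ := by
        rw [h3, ← h5]
        exact h4

end Pool.Agent.SL13.S78
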