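import Pool.Agent.SQ42.Def

/-! MP_7afa8d_nt: moments of exponential sums over square roots, very large frequencies:
definitions (helper13). -/

namespace Pool.Agent.SL13

/-- The integers h >= 1 with H/2 <= h <= H. -/
noncomputable def HL (H : ℝ) : Finset ℕ :=
  (Finset.Icc 1 ⌊H⌋₊).filter (fun h => H ≤ 2 * (h : ℝ))

/-- The sign: 1 on the left, -1 on the right. -/
def sg {R : ℕ} : Fin R ⊕ Fin R → ℤ := Sum.elim (fun _ => 1) (fun _ => -1)

/-- The signed sum of the square roots of the entries. -/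
noncomputable def th {R : ℕ} (a : Fin R ⊕ Fin R → ℕ) : ℝ :=
  ∑ i, (sg i : ℝ) * Real.sqrt (a i)

/-- Property (star): every entry is a square, or its product with another entry is one. -/
def Star {ι : Type} (a : ι → ℕ) : Prop :=
  ∀ i, IsSquare (a i) ∨ ∃ j, j ≠ i ∧ IsSquare (a i * a j)

/-- a squarefree part -/
noncomputable def sqp (a : ℕ) : ℕ := (Nat.sq_mul_squarefree a).choose

theorem sqp_spec (a : ℕ) : ∃ r : ℕ, r ^ 2 * sqp a = a ∧ Squarefree (sqp a) :=
  (Nat.sq_mul_squarefree a).choose_spec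

end Pool.Agent.SL13
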