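import Mathlib

/-! DefR: functions of sign lists with integral coordinates. -/

namespace Pool.Agent.SL13

/-- functions of the signs with integral coordinates -/
def IsR : List ℕ → (List ℝ → ℝ) → Prop
  | [], g => ∃ z : ℤ, g [] = z
  | a :: l, g => ∃ U V : List ℝ → ℝ, IsR l U ∧ IsR l V ∧
      ∀ (s : ℝ) (ss : List ℝ), (s = 1 ∨ s = -1) → g (s :: ss) = U ss + s * Real.sqrt a * V ss

end Pool.Agent.SL13
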