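import Pool.Agent.SL13.Def

/-! Expand, first part (helper16): expansion of the moment. -/

set_option autoImplicit false

namespace Pool.Agent.SL13.S16

open Pool.Agent.SQ42 (e S e_add e_zero e_neg)

theorem e_fsum16 {ι : Type*} (s : Finset ι) (g : ι → ℝ) :
    e (∑ i ∈ s, g i) = ∏ i ∈ s, e (g i) := by
  classical
  induction s using Finset.induction_on with
  | empty => simp [e_zero]
  | insert a s ha ih => rw [Finset.sum_insert ha, Finset.prod_insert ha, e_add, ih]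

/-- the integers of the sum -/
noncomputable def dom (n : ℕ) : Finset ℕ := (Finset.range (n + 1)).filter (fun a => n ≤ 2 * a)

open ComplexConjugate in
theorem key (R n h : ℕ) :
    ((‖S h n‖ ^ (2 * R) : ℝ) : ℂ) =
      ∑ x ∈ Fintype.piFinset (fun _ : Fin R ⊕ Fin R => dom n), e ((h : ℝ) * th x) := by
  set z : ℂ := S h n with hz
  have hz' : z = ∑ a ∈ dom n, e (h * Real.sqrt a) := rfl
  have h1 : ((‖z‖ ^ (2 * R) : ℝ) : ℂ) = z ^ R * (conj z) ^ R := by
    rw [← mul_pow, Complex.mul_conj, Complex.normSq_eq_norm_sq, pow_mul]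
    push_cast
    rfl
  have h2 : z ^ R * (conj z) ^ R = ∏ i : Fin R ⊕ Fin R, ∑ m ∈ dom n,
      e ((h : ℝ) * ((sg i : ℝ) * Real.sqrt m)) := by
    rw [Fintype.prod_sum_type]
    congr 1
    · rw [Finset.prod_congr rfl (g := fun _ => z)]
      · simp
      · intro i _
        rw [hz']
        refine Finset.sum_congr rfl fun m _ => ?_
        show e ((h : ℝ) * (((1 : ℤ) : ℝ) * _)) = _
        rw [Int.cast_one, one_mul]
    · rw [Finset.prod_congr rfl (g := fun _ => conj z)]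
      · simp
      · intro i _
        rw [hz', map_sum]
        refine Finset.sum_congr rfl fun m _ => ?_
        show e ((h : ℝ) * (((-1 : ℤ) : ℝ) * _)) = _
        rw [← e_neg]
        congr 1
        push_cast
        ring
  rw [h1, h2, Finset.prod_univ_sum]
  refine Finset.sum_congr rfl fun x _ => ?_
  rw [← e_fsum16]
  congr 1
  unfold th
  rw [Finset.mul_sum]

theorem dom_sub {n : ℕ} (hn : 1 ≤ n) : dom n ⊆ Finset.Icc 1 n := by
  intro a ha
  unfold dom at ha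
  rw [Finset.mem_filter, Finset.mem_range] at ha
  rw [Finset.mem_Icc]
  omega

theorem expand (R n : ℕ) (H : ℝ) (hn : 1 ≤ n) :
    ∑ h ∈ HL H, ‖S h n‖ ^ (2 * R) ≤
      ∑ a ∈ Fintype.piFinset (fun _ : Fin R ⊕ Fin R => Finset.Icc 1 n),
        ‖∑ h ∈ HL H, e (h * th a)‖ := by
  have h0 : (0 : ℝ) ≤ ∑ h ∈ HL H, ‖S h n‖ ^ (2 * R) :=
    Finset.sum_nonneg fun h _ => pow_nonneg (norm_nonneg _) _
  have h1 : ((∑ h ∈ HL H, ‖S h n‖ ^ (2 * R) : ℝ) : ℂ) =
      ∑ x ∈ Fintype.piFinset (fun _ : Fin R ⊕ Fin R => dom n),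
        ∑ h ∈ HL H, e ((h : ℝ) * th x) := by
    rw [Complex.ofReal_sum, Finset.sum_congr rfl fun h _ => key R n h, Finset.sum_comm]
  calc ∑ h ∈ HL H, ‖S h n‖ ^ (2 * R)
      = ‖((∑ h ∈ HL H, ‖S h n‖ ^ (2 * R) : ℝ) : ℂ)‖ := by
        rw [Complex.norm_real, Real.norm_of_nonneg h0]
    _ = ‖∑ x ∈ Fintype.piFinset (fun _ : Fin R ⊕ Fin R => dom n),
        ∑ h ∈ HL H, e ((h : ℝ) * th x)‖ := by rw [h1]
    _ ≤ ∑ x ∈ Fintype.piFinset (fun _ : Fin R ⊕ Fin R => dom n),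
        ‖∑ h ∈ HL H, e ((h : ℝ) * th x)‖ := norm_sum_le _ _
    _ ≤ ∑ x ∈ Fintype.piFinset (fun _ : Fin R ⊕ Fin R => Finset.Icc 1 n),
        ‖∑ h ∈ HL H, e ((h : ℝ) * th x)‖ :=
        Finset.sum_le_sum_of_subset_of_nonneg
          (Fintype.piFinset_subset _ _ fun _ => dom_sub hn) fun _ _ _ => norm_nonneg _

end Pool.Agent.SL13.S16
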