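import Pool.Agent.SL13.Def

/-! Expand, geo: the geometric sum over HL H (helper94). -/

namespace Pool.Agent.SL13

open Pool.Agent.SQ42 (e S)

theorem HL_eq94 (H : ℝ) : ∃ u v : ℕ, u ≤ v ∧ HL H = Finset.Ico u v := by
  refine ⟨max 1 ⌈H / 2⌉₊, max (max 1 ⌈H / 2⌉₊) (⌊H⌋₊ + 1), le_max_left _ _, ?_⟩
  ext h
  unfold HL
  rw [Finset.mem_filter, Finset.mem_Icc, Finset.mem_Ico]
  have h1 : H ≤ 2 * (h : ℝ) ↔ ⌈H / 2⌉₊ ≤ h := by
    rw [Nat.ceil_le]
    constructor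
    · intro h'
      linarith
    · intro h'
      linarith
  rw [h1]
  omega

theorem geo_s94 (H t : ℝ) (k : ℤ) (hk : |t - k| ≤ 1 / 2) (h0 : t - k ≠ 0) :
    ‖∑ h ∈ HL H, e (h * t)‖ ≤ 1 / |t - k| := by
  obtain ⟨u, v, huv, hH⟩ := HL_eq94 H
  rw [hH]
  set s : ℝ := t - k with hs
  have hpos : 0 < |s| := abs_pos.2 h0
  have hpi := Real.pi_pos
  have h1 : ∀ h : ℕ, e (h * t) = (e s) ^ h := by
    intro h
    have h2 : (h : ℝ) * t = h * s + ((h * k : ℤ) : ℝ) := by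
      rw [hs]
      push_cast
      ring
    rw [h2, Pool.Agent.SQ42.e_add, Pool.Agent.SQ42.e_int, mul_one]
    unfold e
    rw [← Complex.exp_nat_mul]
    congr 1
    push_cast
    ring
  simp_rw [h1]
  set z : ℂ := e s with hz
  have hz1 : ‖z‖ = 1 := Pool.Agent.SQ42.norm_e s
  have hze : z = Complex.exp (Complex.I * ((2 * (Real.pi * s) : ℝ) : ℂ)) := by
    rw [hz]
    unfold e
    congr 1
    push_cast
    ring
  have h3 : ‖z - 1‖ = 2 * |Real.sin (Real.pi * s)| := by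
    rw [hze, Complex.norm_exp_I_mul_ofReal_sub_one,
      show 2 * (Real.pi * s) / 2 = Real.pi * s by ring, norm_mul, Real.norm_eq_abs,
      Real.norm_eq_abs, abs_of_pos (by norm_num : (0:ℝ) < 2)]
  have h4 : 2 * |s| ≤ |Real.sin (Real.pi * s)| := by
    have h5 : |Real.sin (Real.pi * s)| = |Real.sin (Real.pi * |s|)| := by
      rcases abs_cases s with ⟨h', _⟩ | ⟨h', _⟩
      · rw [h']
      · rw [h', show Real.pi * -s = -(Real.pi * s) by ring, Real.sin_neg, abs_neg]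
    have h6 : 2 / Real.pi * (Real.pi * |s|) ≤ Real.sin (Real.pi * |s|) :=
      Real.mul_le_sin (by positivity) (by nlinarith)
    have h7 : 2 / Real.pi * (Real.pi * |s|) = 2 * |s| := by
      field_simp
    rw [h7] at h6
    rw [h5]
    exact h6.trans (le_abs_self _)
  have h8 : 4 * |s| ≤ ‖z - 1‖ := by linarith
  have hz2 : z ≠ 1 := by
    intro h'
    rw [h', sub_self, norm_zero] at h8
    linarith
  have h9 : (∑ h ∈ Finset.Ico u v, z ^ h) * (z - 1) = z ^ v - z ^ u := by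
    rw [geom_sum_Ico hz2 huv, div_mul_cancel₀ _ (sub_ne_zero.2 hz2)]
  have h10 : ‖∑ h ∈ Finset.Ico u v, z ^ h‖ * ‖z - 1‖ ≤ 2 := by
    rw [← norm_mul, h9]
    refine (norm_sub_le _ _).trans ?_
    rw [norm_pow, norm_pow, hz1, one_pow, one_pow]
    norm_num
  rw [le_div_iff₀ hpos]
  have h11 : ‖∑ h ∈ Finset.Ico u v, z ^ h‖ * (4 * |s|) ≤ 2 :=
    (mul_le_mul_of_nonneg_left h8 (norm_nonneg _)).trans h10
  linarith

end Pool.Agent.SL13
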