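import Pool.Agent.SL13.Def
import Pool.Agent.SL13.ExpandS94
import Pool.Agent.SL13.ExpandS16

/-! Expand: expansion of the moment, and the geometric sum.

expand: |z|^(2R) = z^R conj(z)^R; expand the powers over (the a with n/2 <= a <= n)^(Fin R + Fin R)
(as mom_key in SQ42/MomA, with c = 1): |S h n|^(2R) = sum_a e(h th a); sum over h in HL H, exchange,
norms; the tuples are part of [1,n]^(..).
geo: the h in HL H are an interval of integers; |sum e(h t)| <= 2/|e(t) - 1| = 1/|sin(pi t)| and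
|sin(pi t)| = |sin(pi (t - k))| >= 2 |t - k| for |t - k| <= 1/2. -/

namespace Pool.Agent.SL13

open Pool.Agent.SQ42 (e S)

theorem expand (R n : ℕ) (H : ℝ) (hn : 1 ≤ n) :
    ∑ h ∈ HL H, ‖S h n‖ ^ (2 * R) ≤
      ∑ a ∈ Fintype.piFinset (fun _ : Fin R ⊕ Fin R => Finset.Icc 1 n),
        ‖∑ h ∈ HL H, e (h * th a)‖ := by
  exact S16.expand R n H hn

theorem geo (H t : ℝ) (k : ℤ) (hk : |t - k| ≤ 1 / 2) (h0 : t - k ≠ 0) :
    ‖∑ h ∈ HL H, e (h * t)‖ ≤ 1 / |t - k| := by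
  exact geo_s94 H t k hk h0

end Pool.Agent.SL13
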