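import Pool.Agent.SL13.DefR

set_option autoImplicit false

/-! LowS60: `low_list` -/

namespace Pool.Agent.SL13.S60

theorem isR_const (l : List ℕ) (z : ℤ) : IsR l (fun _ => (z : ℝ)) := by
  induction l generalizing z with
  | nil => exact ⟨z, rfl⟩
  | cons a l ih =>
    refine ⟨fun _ => (z : ℝ), fun _ => ((0 : ℤ) : ℝ), ih z, ih 0, ?_⟩
    intro s ss _
    simp

theorem isR_add (l : List ℕ) (g h : List ℝ → ℝ) (hg : IsR l g) (hh : IsR l h) :
    IsR l (fun ss => g ss + h ss) := by
  induction l generalizing g h with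
  | nil =>
    obtain ⟨z, hz⟩ := hg
    obtain ⟨w, hw⟩ := hh
    exact ⟨z + w, by push_cast; rw [← hz, ← hw]⟩
  | cons a l ih =>
    obtain ⟨U, V, hU, hV, h1⟩ := hg
    obtain ⟨U', V', hU', hV', h2⟩ := hh
    refine ⟨fun ss => U ss + U' ss, fun ss => V ss + V' ss, ih U U' hU hU', ih V V' hV hV', ?_⟩
    intro s ss hs
    show g (s :: ss) + h (s :: ss) = _
    rw [h1 s ss hs, h2 s ss hs]
    ring

theorem isR_mul (l : List ℕ) (g h : List ℝ → ℝ) (hg : IsR l g) (hh : IsR l h) :
    IsR l (fun ss => g ss * h ss) := by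
  induction l generalizing g h with
  | nil =>
    obtain ⟨z, hz⟩ := hg
    obtain ⟨w, hw⟩ := hh
    exact ⟨z * w, by push_cast; rw [← hz, ← hw]⟩
  | cons a l ih =>
    obtain ⟨U, V, hU, hV, h1⟩ := hg
    obtain ⟨U', V', hU', hV', h2⟩ := hh
    refine ⟨fun ss => U ss * U' ss + ((a : ℤ) : ℝ) * (V ss * V' ss),
      fun ss => U ss * V' ss + V ss * U' ss,
      isR_add l _ _ (ih U U' hU hU') (ih _ _ (isR_const l a) (ih V V' hV hV')),
      isR_add l _ _ (ih U V' hU hV') (ih V U' hV hU'), ?_⟩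
    intro s ss hs
    show g (s :: ss) * h (s :: ss) = _
    rw [h1 s ss hs, h2 s ss hs]
    have hs2 : s * s = 1 := by rcases hs with h | h <;> rw [h] <;> norm_num
    have ha : Real.sqrt a * Real.sqrt a = (a : ℝ) := Real.mul_self_sqrt (Nat.cast_nonneg a)
    have e : (U ss + s * Real.sqrt a * V ss) * (U' ss + s * Real.sqrt a * V' ss) =
        U ss * U' ss + (s * s) * (Real.sqrt a * Real.sqrt a) * (V ss * V' ss) +
          s * Real.sqrt a * (U ss * V' ss + V ss * U' ss) := by ring
    rw [e, hs2, ha]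
    push_cast
    ring

theorem low_list (l : List ℕ) (g : List ℝ → ℝ) (hg : IsR l g) (B : ℝ) (hB : 2 ≤ B)
    (hb : ∀ ss : List ℝ, ss.length = l.length → (∀ s ∈ ss, s = 1 ∨ s = -1) → |g ss| ≤ B)
    (h0 : g (List.replicate l.length 1) ≠ 0) :
    1 ≤ |g (List.replicate l.length 1)| * B ^ (2 ^ l.length - 1) := by
  induction l generalizing g B with
  | nil =>
    obtain ⟨z, hz⟩ := hg
    have e : g (List.replicate ([] : List ℕ).length 1) = (z : ℝ) := hz
    rw [e] at h0 ⊢
    have hz0 : z ≠ 0 := by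
      intro h
      rw [h] at h0
      exact h0 (by norm_num)
    have h1 : (1 : ℝ) ≤ |(z : ℝ)| := by exact_mod_cast Int.one_le_abs hz0
    simpa using h1
  | cons a l ih =>
    obtain ⟨U, V, hU, hV, h1⟩ := hg
    set r : List ℝ := List.replicate l.length 1 with hr
    have hrep : List.replicate (a :: l).length (1 : ℝ) = 1 :: r := by
      rw [List.length_cons, List.replicate_succ]
    rw [hrep] at h0 ⊢
    have hrlen : r.length = l.length := by rw [hr, List.length_replicate]
    have hrs : ∀ s ∈ r, s = 1 ∨ s = -1 := by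
      intro s hs
      exact Or.inl (List.eq_of_mem_replicate hs)
    have hb1 : ∀ ss : List ℝ, ss.length = l.length → (∀ s ∈ ss, s = 1 ∨ s = -1) →
        |g (1 :: ss)| ≤ B := by
      intro ss h2 h3
      apply hb
      · rw [List.length_cons, List.length_cons, h2]
      · intro s hs
        rcases List.mem_cons.1 hs with h | h
        · exact Or.inl h
        · exact h3 s h
    have hb2 : ∀ ss : List ℝ, ss.length = l.length → (∀ s ∈ ss, s = 1 ∨ s = -1) →
        |g (-1 :: ss)| ≤ B := by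
      intro ss h2 h3
      apply hb
      · rw [List.length_cons, List.length_cons, h2]
      · intro s hs
        rcases List.mem_cons.1 hs with h | h
        · exact Or.inr h
        · exact h3 s h
    have hB0 : 0 ≤ B := by linarith
    have hB2 : 2 ≤ B ^ 2 := by nlinarith
    have hlen : 2 ^ (a :: l).length - 1 = 2 * (2 ^ l.length - 1) + 1 := by
      have h5 : 1 ≤ 2 ^ l.length := Nat.one_le_two_pow
      rw [List.length_cons, pow_succ]
      omega
    have hpowB : B ^ (2 ^ (a :: l).length - 1) = (B ^ 2) ^ (2 ^ l.length - 1) * B := by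
      rw [hlen, pow_succ, pow_mul]
    have hP0 : 0 ≤ (B ^ 2) ^ (2 ^ l.length - 1) := by positivity
    rw [hpowB]
    by_cases hX : g (-1 :: r) = 0
    · -- the sum
      have hf : (fun ss => g (1 :: ss) + g (-1 :: ss)) = fun ss => ((2 : ℤ) : ℝ) * U ss := by
        funext ss
        rw [h1 1 ss (Or.inl rfl), h1 (-1) ss (Or.inr rfl)]
        push_cast
        ring
      have hR : IsR l (fun ss => g (1 :: ss) + g (-1 :: ss)) := by
        rw [hf]
        exact isR_mul l _ _ (isR_const l 2) hU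
      have h2 := ih (fun ss => g (1 :: ss) + g (-1 :: ss)) hR (B ^ 2) hB2 (by
        intro ss h3 h4
        have h5 := hb1 ss h3 h4
        have h6 := hb2 ss h3 h4
        calc |g (1 :: ss) + g (-1 :: ss)| ≤ |g (1 :: ss)| + |g (-1 :: ss)| := abs_add_le _ _
          _ ≤ B + B := add_le_add h5 h6
          _ ≤ B ^ 2 := by nlinarith) (by
        show g (1 :: r) + g (-1 :: r) ≠ 0
        rw [hX, add_zero]
        exact h0)
      have h3 : 1 ≤ |g (1 :: r) + g (-1 :: r)| * (B ^ 2) ^ (2 ^ l.length - 1) := h2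
      rw [hX, add_zero] at h3
      have h4 : 0 ≤ |g (1 :: r)| * (B ^ 2) ^ (2 ^ l.length - 1) := by positivity
      calc (1 : ℝ) ≤ |g (1 :: r)| * (B ^ 2) ^ (2 ^ l.length - 1) := h3
        _ ≤ |g (1 :: r)| * (B ^ 2) ^ (2 ^ l.length - 1) * B := by
            nlinarith
        _ = |g (1 :: r)| * ((B ^ 2) ^ (2 ^ l.length - 1) * B) := by ring
    · -- the product
      have hf : (fun ss => g (1 :: ss) * g (-1 :: ss)) = fun ss =>
          U ss * U ss + ((-(a : ℤ) : ℤ) : ℝ) * (V ss * V ss) := by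
        funext ss
        rw [h1 1 ss (Or.inl rfl), h1 (-1) ss (Or.inr rfl)]
        have ha : Real.sqrt a * Real.sqrt a = (a : ℝ) := Real.mul_self_sqrt (Nat.cast_nonneg a)
        have e : (U ss + 1 * Real.sqrt a * V ss) * (U ss + -1 * Real.sqrt a * V ss) =
            U ss * U ss - (Real.sqrt a * Real.sqrt a) * (V ss * V ss) := by ring
        rw [e, ha]
        push_cast
        ring
      have hR : IsR l (fun ss => g (1 :: ss) * g (-1 :: ss)) := by
        rw [hf]
        exact isR_add l _ _ (isR_mul l _ _ hU hU)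
          (isR_mul l _ _ (isR_const l _) (isR_mul l _ _ hV hV))
      have h2 := ih (fun ss => g (1 :: ss) * g (-1 :: ss)) hR (B ^ 2) hB2 (by
        intro ss h3 h4
        have h5 := hb1 ss h3 h4
        have h6 := hb2 ss h3 h4
        calc |g (1 :: ss) * g (-1 :: ss)| = |g (1 :: ss)| * |g (-1 :: ss)| := abs_mul _ _
          _ ≤ B * B := mul_le_mul h5 h6 (abs_nonneg _) hB0
          _ = B ^ 2 := by ring) (by
        show g (1 :: r) * g (-1 :: r) ≠ 0
        exact mul_ne_zero h0 hX)
      have h3 : 1 ≤ |g (1 :: r) * g (-1 :: r)| * (B ^ 2) ^ (2 ^ l.length - 1) := h2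
      rw [abs_mul] at h3
      have h4 := hb2 r hrlen hrs
      calc (1 : ℝ) ≤ |g (1 :: r)| * |g (-1 :: r)| * (B ^ 2) ^ (2 ^ l.length - 1) := h3
        _ ≤ |g (1 :: r)| * B * (B ^ 2) ^ (2 ^ l.length - 1) :=
            mul_le_mul_of_nonneg_right (mul_le_mul_of_nonneg_left h4 (abs_nonneg _)) hP0
        _ = |g (1 :: r)| * ((B ^ 2) ^ (2 ^ l.length - 1) * B) := by ring

end Pool.Agent.SL13.S60
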