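import Pool.Agent.SL13.DefR
import Pool.Agent.SL13.LowS60

/-! Low: a nonzero integral combination of m square roots is not too small.

Signs: lists ss of reals 1, -1. Predicate on functions g : List ℝ -> ℝ, for a list l of naturals:
IsR [] g: g [] is an integer; IsR (a :: l) g: there are U, V with IsR l U, IsR l V and
g (s :: ss) = U ss + s sqrt a V ss for s = 1 and s = -1 and all ss.
(1) IsR l is closed under +, *, and contains the integer constants (induction; the product of
U + s sqrt a V and U' + s sqrt a V' is (U U' + a V V') + s sqrt a (U V' + V U') since s^2 = 1).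
(2) low_list: if B >= 2, |g ss| <= B for all sign lists ss of length l.length and g (1,...,1) is not 0
then 1 <= |g (1,...,1)| B^(2^(length l) - 1). Induction on l. []: a nonzero integer. a :: l: X = g(1,1..)
= U + sqrt a V, X' = g(-1,1,...) = U - sqrt a V. If X' is not 0 use U U - a V V = g(1,ss) g(-1,ss)
(bounded by B^2, IsR l): 1 <= |X| |X'| (B^2)^(2^l - 1) <= |X| B B^(2^(l+1) - 2). If X' = 0 use 2 U =
g(1,ss) + g(-1,ss) (bounded by 2 B <= B^2): 1 <= |X| (B^2)^(2^l - 1).
(3) the linear form: for L : List (ℤ × ℕ), g ss = k + sum of s_j c_j sqrt(a_j) is IsR; apply it to the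
list of the pairs (c i, a i), i in Finset.univ.toList. -/

namespace Pool.Agent.SL13

theorem low_list (l : List ℕ) (g : List ℝ → ℝ) (hg : IsR l g) (B : ℝ) (hB : 2 ≤ B)
    (hb : ∀ ss : List ℝ, ss.length = l.length → (∀ s ∈ ss, s = 1 ∨ s = -1) → |g ss| ≤ B)
    (h0 : g (List.replicate l.length 1) ≠ 0) :
    1 ≤ |g (List.replicate l.length 1)| * B ^ (2 ^ l.length - 1) :=
  S60.low_list l g hg B hB hb h0

private theorem isR_const : ∀ (l : List ℕ) (z : ℤ), IsR l (fun _ => (z : ℝ))
  | [], z => ⟨z, rfl⟩
  | a :: l, z => ⟨fun _ => (z : ℝ), fun _ => ((0 : ℤ) : ℝ), isR_const l z, isR_const l 0,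
      fun s ss _ => by simp⟩

/-- the linear form with signs -/
private noncomputable def lin : List (ℤ × ℕ) → ℤ → List ℝ → ℝ
  | [], k, _ => k
  | _ :: _, _, [] => 0
  | p :: L, k, s :: ss => lin L k ss + s * Real.sqrt p.2 * p.1

private theorem isR_lin (k : ℤ) : ∀ L : List (ℤ × ℕ), IsR (L.map Prod.snd) (lin L k)
  | [] => ⟨k, rfl⟩
  | p :: L => ⟨lin L k, fun _ => (p.1 : ℝ), isR_lin k L, isR_const _ p.1, fun s ss _ => rfl⟩

private theorem lin_one (k : ℤ) : ∀ L : List (ℤ × ℕ),
    lin L k (List.replicate L.length 1) = k + (L.map (fun p => (p.1 : ℝ) * Real.sqrt p.2)).sum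
  | [] => by simp [lin]
  | p :: L => by
    have h := lin_one k L
    rw [List.length_cons, List.replicate_succ]
    change lin L k (List.replicate L.length 1) + 1 * Real.sqrt p.2 * p.1 = _
    rw [h, List.map_cons, List.sum_cons]
    ring

private theorem lin_le (k : ℤ) : ∀ (L : List (ℤ × ℕ)) (ss : List ℝ), ss.length = L.length →
    (∀ s ∈ ss, s = 1 ∨ s = -1) →
    |lin L k ss| ≤ |(k : ℝ)| + (L.map (fun p => |(p.1 : ℝ)| * Real.sqrt p.2)).sum
  | [], _, _, _ => by simp [lin]
  | p :: L, [], h, _ => by simp at h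
  | p :: L, s :: ss, h, hs => by
    have h1 := lin_le k L ss (by simpa using h) (fun t ht => hs t (List.mem_cons_of_mem _ ht))
    have h2 : |s| = 1 := by
      rcases hs s List.mem_cons_self with e | e <;> rw [e] <;> norm_num
    change |lin L k ss + s * Real.sqrt p.2 * p.1| ≤ _
    refine (abs_add_le _ _).trans ?_
    rw [abs_mul, abs_mul, h2, one_mul, abs_of_nonneg (Real.sqrt_nonneg _), List.map_cons,
      List.sum_cons]
    linarith

theorem low {ι : Type} [Fintype ι] (a : ι → ℕ) (c : ι → ℤ) (k : ℤ) (B : ℝ) (hB : 2 ≤ B)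
    (hb : |(k : ℝ)| + ∑ i, |(c i : ℝ)| * Real.sqrt (a i) ≤ B)
    (h0 : (∑ i, (c i : ℝ) * Real.sqrt (a i)) - k ≠ 0) :
    1 ≤ |(∑ i, (c i : ℝ) * Real.sqrt (a i)) - k| * B ^ (2 ^ Fintype.card ι - 1) := by
  classical
  set L : List (ℤ × ℕ) := (Finset.univ : Finset ι).toList.map (fun i => (c i, a i)) with hL
  have hlen : (L.map Prod.snd).length = Fintype.card ι := by
    rw [hL, List.length_map, List.length_map, Finset.length_toList, Finset.card_univ]
  have hlen2 : L.length = Fintype.card ι := by
    rw [hL, List.length_map, Finset.length_toList, Finset.card_univ]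
  have hval : lin L (-k) (List.replicate L.length 1) =
      (∑ i, (c i : ℝ) * Real.sqrt (a i)) - k := by
    rw [lin_one, hL, List.map_map]
    change _ + ((Finset.univ : Finset ι).toList.map
      (fun i => (c i : ℝ) * Real.sqrt (a i))).sum = _
    rw [Finset.sum_map_toList]
    push_cast
    ring
  have hmain := low_list (L.map Prod.snd) (lin L (-k)) (isR_lin (-k) L) B hB (by
    intro ss hss hs
    refine (lin_le (-k) L ss (by rw [hss, List.length_map]) hs).trans ?_
    rw [hL, List.map_map]
    change _ + ((Finset.univ : Finset ι).toList.map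
      (fun i => |(c i : ℝ)| * Real.sqrt (a i))).sum ≤ _
    rw [Finset.sum_map_toList]
    have : |((-k : ℤ) : ℝ)| = |(k : ℝ)| := by
      push_cast
      exact abs_neg _
    rw [this]
    exact hb) (by
    rw [hlen, ← hlen2, hval]
    exact h0)
  rw [hlen, ← hlen2, hval, hlen2] at hmain
  exact hmain

end Pool.Agent.SL13
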