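import Pool.Agent.SL13.Star
import Pool.Agent.SL13.Low
import Pool.Agent.SL13.CountB
import Pool.Agent.SL13.Expand

/-! Int: the integer moments for H >= n^(R + (4^R - 1)/2).

Proof. expand. Tuples with th a an integer have Star (star_of_int): at most
(2R)^(2R) n^R (1 + log n)^(2R) (count_star), each contributes <= card (HL H) <= H; (1+log n)^(2R)
<= C n^eps. For the others k = round (th a): |th a - k| <= 1/2 and not 0; |k| <= |th a| + 1/2 <=
2R sqrt n + 1/2, so low with B = (4R + 2) sqrt n: |th a - k|^(-1) <= B^(4^R - 1), geo; at most n^(2R)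
such tuples: <= n^(2R) (4R+2)^(4^R) n^((4^R - 1)/2) <= C n^R H. Proof by helper46. -/

namespace Pool.Agent.SL13

open Pool.Agent.SQ42 (e S)

theorem int13_log (R : ℕ) (hR : 1 ≤ R) (eps : ℝ) (heps : 0 < eps) :
    ∃ C : ℝ, 0 ≤ C ∧ ∀ n : ℕ, 1 ≤ n → (1 + Real.log n) ^ (2 * R) ≤ C * (n : ℝ) ^ eps := by
  have hR0 : (0 : ℝ) < 2 * R := by
    have : (1 : ℝ) ≤ R := by exact_mod_cast hR
    linarith
  set d : ℝ := eps / (2 * R) with hd
  have hd0 : 0 < d := div_pos heps hR0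
  refine ⟨(1 + 1 / d) ^ (2 * R), by positivity, fun n hn => ?_⟩
  have hn1 : (1 : ℝ) ≤ n := by exact_mod_cast hn
  have hn0 : (0 : ℝ) ≤ n := by linarith
  have h1 : Real.log n ≤ (n : ℝ) ^ d / d := Real.log_le_rpow_div hn0 hd0
  have h2 : 1 ≤ (n : ℝ) ^ d := Real.one_le_rpow hn1 hd0.le
  have h3 : 1 + Real.log n ≤ (1 + 1 / d) * (n : ℝ) ^ d := by
    have : (1 + 1 / d) * (n : ℝ) ^ d = (n : ℝ) ^ d + (n : ℝ) ^ d / d := by ring
    rw [this]
    linarith
  have h4 : 0 ≤ 1 + Real.log n := by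
    have := Real.log_nonneg hn1
    linarith
  have h5 : ((n : ℝ) ^ d) ^ (2 * R) = (n : ℝ) ^ eps := by
    rw [← Real.rpow_natCast, ← Real.rpow_mul hn0]
    congr 1
    rw [hd]
    push_cast
    field_simp
  calc (1 + Real.log n) ^ (2 * R) ≤ ((1 + 1 / d) * (n : ℝ) ^ d) ^ (2 * R) :=
        pow_le_pow_left₀ h4 h3 _
    _ = (1 + 1 / d) ^ (2 * R) * (n : ℝ) ^ eps := by rw [mul_pow, h5]

theorem int13_card (H : ℝ) (hH : 0 ≤ H) : ((HL H).card : ℝ) ≤ H := by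
  have h1 : (HL H).card ≤ ⌊H⌋₊ := by
    unfold HL
    refine (Finset.card_filter_le _ _).trans ?_
    rw [Nat.card_Icc]
    omega
  exact (Nat.cast_le.2 h1).trans (Nat.floor_le hH)

theorem int13_sg {R : ℕ} (i : Fin R ⊕ Fin R) : sg i = 1 ∨ sg i = -1 := by
  rcases i with i | i
  · left; rfl
  · right; rfl

/-- one tuple without the property (star) -/
theorem int13_one (R n : ℕ) (hR : 1 ≤ R) (hn : 1 ≤ n) (H : ℝ) (a : Fin R ⊕ Fin R → ℕ)
    (ha : ∀ i, 1 ≤ a i ∧ a i ≤ n) (hs : ¬ Star a) :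
    ‖∑ h ∈ HL H, e (h * th a)‖ ≤ ((4 * R + 2) * Real.sqrt n) ^ (4 ^ R - 1) := by
  have hn1 : (1 : ℝ) ≤ n := by exact_mod_cast hn
  have hR1 : (1 : ℝ) ≤ R := by exact_mod_cast hR
  have hsn : 1 ≤ Real.sqrt n := Real.one_le_sqrt.2 hn1
  set k : ℤ := round (th a) with hk
  have h1 : |th a - k| ≤ 1 / 2 := abs_sub_round _
  have h0 : th a - k ≠ 0 := by
    intro h0
    apply hs
    refine star_of_int a (fun i => (ha i).1) sg (fun i => ?_) k ?_
    · rcases int13_sg i with h | h <;> rw [h] <;> norm_num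
    · have : th a = k := sub_eq_zero.1 h0
      exact this
  have habs : ∀ i : Fin R ⊕ Fin R, |(sg i : ℝ)| = 1 := by
    intro i
    rcases int13_sg i with h | h <;> rw [h] <;> simp
  have hsum : ∑ i, |(sg i : ℝ)| * Real.sqrt (a i) ≤ 2 * R * Real.sqrt n := by
    calc ∑ i, |(sg i : ℝ)| * Real.sqrt (a i) ≤ ∑ _i : Fin R ⊕ Fin R, Real.sqrt n := by
          refine Finset.sum_le_sum fun i _ => ?_
          rw [habs, one_mul]
          exact Real.sqrt_le_sqrt (Nat.cast_le.2 (ha i).2)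
      _ = 2 * R * Real.sqrt n := by
          rw [Finset.sum_const, Finset.card_univ, Fintype.card_sum, Fintype.card_fin, nsmul_eq_mul]
          push_cast
          ring
  have hth : |th a| ≤ 2 * R * Real.sqrt n := by
    unfold th
    refine (Finset.abs_sum_le_sum_abs _ _).trans ?_
    refine le_trans (le_of_eq ?_) hsum
    refine Finset.sum_congr rfl fun i _ => ?_
    rw [abs_mul, abs_of_nonneg (Real.sqrt_nonneg _)]
  have hkb : |(k : ℝ)| ≤ 2 * R * Real.sqrt n + 1 / 2 := by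
    have h2 : (k : ℝ) = th a - (th a - k) := by ring
    rw [h2]
    refine (abs_sub _ _).trans ?_
    linarith
  have hB : 2 ≤ (4 * R + 2) * Real.sqrt n := by nlinarith
  have h3 := low a sg k ((4 * R + 2) * Real.sqrt n) hB (by nlinarith) h0
  have hcard : Fintype.card (Fin R ⊕ Fin R) = 2 * R := by
    rw [Fintype.card_sum, Fintype.card_fin]
    ring
  rw [hcard, pow_mul, show (2 : ℕ) ^ 2 = 4 from rfl] at h3
  have h4 := geo H (th a) k h1 h0
  have h5 : 0 < |th a - k| := abs_pos.2 h0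
  refine h4.trans ?_
  rw [div_le_iff₀ h5, mul_comm]
  exact h3

theorem int_sharp (R : ℕ) (hR : 1 ≤ R) (eps : ℝ) (heps : 0 < eps) :
    ∃ C : ℝ, 0 ≤ C ∧ ∀ n : ℕ, 1 ≤ n → ∀ H : ℝ, (n : ℝ) ^ R * Real.sqrt n ^ (4 ^ R - 1) ≤ H →
      ∑ h ∈ HL H, ‖S h n‖ ^ (2 * R) ≤ C * H * (n : ℝ) ^ (R + eps) := by
  classical
  obtain ⟨C1, hC1, hlog⟩ := int13_log R hR eps heps
  refine ⟨(2 * R : ℝ) ^ (2 * R) * C1 + (4 * R + 2 : ℝ) ^ (4 ^ R - 1), by positivity,
    fun n hn H hH => ?_⟩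
  have hn1 : (1 : ℝ) ≤ n := by exact_mod_cast hn
  have hn0 : (0 : ℝ) < n := by linarith
  have hsn0 : 0 ≤ Real.sqrt n := Real.sqrt_nonneg _
  have hsn1 : 1 ≤ Real.sqrt n := Real.one_le_sqrt.2 hn1
  have hH1 : 1 ≤ H := (one_le_mul_of_one_le_of_one_le (one_le_pow₀ hn1) (one_le_pow₀ hsn1)).trans hH
  have hH0 : 0 ≤ H := by linarith
  have hsq : Real.sqrt n ^ (2 * R) = (n : ℝ) ^ R := by
    rw [pow_mul, Real.sq_sqrt hn0.le]
  have hneps : 1 ≤ (n : ℝ) ^ eps := Real.one_le_rpow hn1 heps.le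
  have hcard : Fintype.card (Fin R ⊕ Fin R) = 2 * R := by
    rw [Fintype.card_sum, Fintype.card_fin]
    ring
  set T : Finset (Fin R ⊕ Fin R → ℕ) :=
    Fintype.piFinset (fun _ : Fin R ⊕ Fin R => Finset.Icc 1 n) with hT
  have hTc : (T.card : ℝ) = (n : ℝ) ^ (2 * R) := by
    rw [hT, Fintype.card_piFinset]
    simp only [Nat.card_Icc, Finset.prod_const, Finset.card_univ, hcard]
    push_cast
    simp
  have hexp : ∑ h ∈ HL H, ‖S h n‖ ^ (2 * R) ≤ ∑ a ∈ T, ‖∑ h ∈ HL H, e (h * th a)‖ := by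
    exact expand R n H hn
  refine hexp.trans ?_
  rw [← Finset.sum_filter_add_sum_filter_not T (fun a => Star a)]
  -- tuples with the property
  have hA : ∑ a ∈ T.filter (fun a => Star a), ‖∑ h ∈ HL H, e (h * th a)‖ ≤
      (2 * R : ℝ) ^ (2 * R) * C1 * H * ((n : ℝ) ^ R * (n : ℝ) ^ eps) := by
    have h1 : ∀ a ∈ T.filter (fun a => Star a), ‖∑ h ∈ HL H, e (h * th a)‖ ≤ H := by
      intro a _
      refine (norm_sum_le _ _).trans ?_
      simp only [Pool.Agent.SQ42.norm_e, Finset.sum_const, nsmul_eq_mul, mul_one]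
      exact int13_card H hH0
    have h2 := Finset.sum_le_card_nsmul _ _ _ h1
    rw [nsmul_eq_mul] at h2
    have h3 := count_star (ι := Fin R ⊕ Fin R) n hn
    rw [hcard, hsq] at h3
    have h4 : ((T.filter (fun a => Star a)).card : ℝ) ≤
        (2 * R : ℝ) ^ (2 * R) * ((n : ℝ) ^ R * (C1 * (n : ℝ) ^ eps)) := by
      refine le_trans (le_trans (le_of_eq ?_) h3) ?_
      · refine congrArg (fun s : Finset (Fin R ⊕ Fin R → ℕ) => ((s.card : ℕ) : ℝ))
          (Finset.ext fun a => ?_)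
        simp only [Finset.mem_filter, hT, Fintype.mem_piFinset]
      · push_cast
        refine mul_le_mul_of_nonneg_left ?_ (by positivity)
        exact mul_le_mul_of_nonneg_left (hlog n hn) (by positivity)
    calc ∑ a ∈ T.filter (fun a => Star a), ‖∑ h ∈ HL H, e (h * th a)‖
        ≤ ((T.filter (fun a => Star a)).card : ℝ) * H := h2
      _ ≤ ((2 * R : ℝ) ^ (2 * R) * ((n : ℝ) ^ R * (C1 * (n : ℝ) ^ eps))) * H :=
          mul_le_mul_of_nonneg_right h4 hH0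
      _ = (2 * R : ℝ) ^ (2 * R) * C1 * H * ((n : ℝ) ^ R * (n : ℝ) ^ eps) := by ring
  have hB : ∑ a ∈ T.filter (fun a => ¬ Star a), ‖∑ h ∈ HL H, e (h * th a)‖ ≤
      (4 * R + 2 : ℝ) ^ (4 ^ R - 1) * H * ((n : ℝ) ^ R * (n : ℝ) ^ eps) := by
    have h1 : ∀ a ∈ T.filter (fun a => ¬ Star a), ‖∑ h ∈ HL H, e (h * th a)‖ ≤
        ((4 * R + 2) * Real.sqrt n) ^ (4 ^ R - 1) := by
      intro a ha
      rw [Finset.mem_filter, hT, Fintype.mem_piFinset] at ha
      exact int13_one R n hR hn H a (fun i => Finset.mem_Icc.1 (ha.1 i)) ha.2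
    have h2 := Finset.sum_le_card_nsmul _ _ _ h1
    rw [nsmul_eq_mul] at h2
    have h3 : ((T.filter (fun a => ¬ Star a)).card : ℝ) ≤ (n : ℝ) ^ (2 * R) := by
      rw [← hTc]
      exact Nat.cast_le.2 (Finset.card_filter_le _ _)
    have h4 : (n : ℝ) ^ R * Real.sqrt n ^ (4 ^ R - 1) ≤ H := hH
    have h8 : (0 : ℝ) ≤ (4 * R + 2 : ℝ) ^ (4 ^ R - 1) := by positivity
    calc ∑ a ∈ T.filter (fun a => ¬ Star a), ‖∑ h ∈ HL H, e (h * th a)‖
        ≤ ((T.filter (fun a => ¬ Star a)).card : ℝ) *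
            ((4 * R + 2) * Real.sqrt n) ^ (4 ^ R - 1) := h2
      _ ≤ (n : ℝ) ^ (2 * R) * ((4 * R + 2) * Real.sqrt n) ^ (4 ^ R - 1) :=
          mul_le_mul_of_nonneg_right h3 (by positivity)
      _ = (4 * R + 2 : ℝ) ^ (4 ^ R - 1) * (n : ℝ) ^ R *
            ((n : ℝ) ^ R * Real.sqrt n ^ (4 ^ R - 1)) := by
          rw [mul_pow, two_mul, pow_add]
          ring
      _ ≤ (4 * R + 2 : ℝ) ^ (4 ^ R - 1) * (n : ℝ) ^ R * H :=
          mul_le_mul_of_nonneg_left h4 (by positivity)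
      _ ≤ (4 * R + 2 : ℝ) ^ (4 ^ R - 1) * (n : ℝ) ^ R * H * (n : ℝ) ^ eps :=
          le_mul_of_one_le_right (by positivity) hneps
      _ = (4 * R + 2 : ℝ) ^ (4 ^ R - 1) * H * ((n : ℝ) ^ R * (n : ℝ) ^ eps) := by ring
  have hfin : (n : ℝ) ^ ((R : ℝ) + eps) = (n : ℝ) ^ R * (n : ℝ) ^ eps := by
    rw [Real.rpow_add hn0, Real.rpow_natCast]
  rw [hfin]
  calc _ ≤ (2 * R : ℝ) ^ (2 * R) * C1 * H * ((n : ℝ) ^ R * (n : ℝ) ^ eps) +
        (4 * R + 2 : ℝ) ^ (4 ^ R - 1) * H * ((n : ℝ) ^ R * (n : ℝ) ^ eps) := add_le_add hA hB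
    _ = _ := by ring

end Pool.Agent.SL13
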