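import Pool.Agent.SL13.IntS13

/-! Real: real exponents. R = ceil r, Jensen (Hoelder): sum_h |S|^(2r) <= (sum_h |S|^(2R))^(r/R)
(card HL H)^(1 - r/R), card HL H <= H, int_sharp: exponent (R + eps) r/R <= r + eps.
(Same as real_moment in SQ42/Main3.) Proof by helper65. -/

namespace Pool.Agent.SL13

open Pool.Agent.SQ42 (e S)

theorem real_sharp (r : ℝ) (hr : 1 ≤ r) (eps : ℝ) (heps : 0 < eps) :
    ∃ C : ℝ, 0 ≤ C ∧ ∀ n : ℕ, 1 ≤ n → ∀ H : ℝ,
      (n : ℝ) ^ ((⌈r⌉₊ : ℝ) + (4 ^ ⌈r⌉₊ - 1) / 2) ≤ H →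
      ∑ h ∈ HL H, ‖S h n‖ ^ (2 * r) ≤ C * H * (n : ℝ) ^ (r + eps) := by
  have hr0 : 0 < r := by linarith
  have hR : 1 ≤ ⌈r⌉₊ := Nat.one_le_ceil_iff.2 hr0
  have hrR : r ≤ (⌈r⌉₊ : ℝ) := Nat.le_ceil r
  have hRr : (1 : ℝ) ≤ (⌈r⌉₊ : ℝ) := by exact_mod_cast hR
  obtain ⟨C, hC, h0⟩ := int_sharp ⌈r⌉₊ hR eps heps
  generalize hRdef : ⌈r⌉₊ = R at *
  have hR0 : (0 : ℝ) < R := by linarith
  refine ⟨C ^ (r / R), by positivity, fun n hn H hH1 => ?_⟩
  have hn1 : (1 : ℝ) ≤ n := by exact_mod_cast hn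
  have hn0 : (0 : ℝ) ≤ n := by linarith
  have h4R : (1 : ℝ) ≤ 4 ^ R := one_le_pow₀ (by norm_num)
  have hH : 1 ≤ H := (Real.one_le_rpow hn1 (by linarith)).trans hH1
  have hH0 : 0 ≤ H := by linarith
  have hpw : (n : ℝ) ^ R * Real.sqrt n ^ (4 ^ R - 1) =
      (n : ℝ) ^ ((R : ℝ) + (4 ^ R - 1) / 2) := by
    have hn' : (0 : ℝ) < n := by linarith
    have h4 : 1 ≤ 4 ^ R := Nat.one_le_pow _ _ (by norm_num)
    rw [Real.rpow_add hn', Real.rpow_natCast, Real.sqrt_eq_rpow,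
      ← Real.rpow_natCast ((n : ℝ) ^ (1 / 2 : ℝ)) (4 ^ R - 1), ← Real.rpow_mul hn0,
      Nat.cast_sub h4]
    congr 2
    push_cast
    ring
  have h1 := h0 n hn H (hpw.trans_le hH1)
  have hp : 1 ≤ (R : ℝ) / r := (one_le_div hr0).2 hrR
  have hcard : ((HL H).card : ℝ) ≤ H := by
    have h2 : (HL H).card ≤ ⌊H⌋₊ := by
      refine (Finset.card_le_card (Finset.filter_subset _ _)).trans ?_
      rw [Nat.card_Icc]
      omega
    exact (Nat.cast_le.2 h2).trans (Nat.floor_le hH0)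
  -- Jensen
  have hJ := Real.rpow_sum_le_const_mul_sum_rpow_of_nonneg (s := HL H)
    (f := fun h => ‖S h n‖ ^ (2 * r)) hp (fun i _ => by positivity)
  have hterm : ∀ h, (‖S h n‖ ^ (2 * r)) ^ ((R : ℝ) / r) = ‖S h n‖ ^ (2 * R) := by
    intro h
    rw [← Real.rpow_mul (norm_nonneg _), ← Real.rpow_natCast]
    congr 1
    push_cast
    field_simp
  rw [Finset.sum_congr rfl fun h _ => hterm h] at hJ
  have hA0 : 0 ≤ ∑ h ∈ HL H, ‖S h n‖ ^ (2 * r) := Finset.sum_nonneg fun i _ => by positivity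
  have hb : (∑ h ∈ HL H, ‖S h n‖ ^ (2 * r)) ^ ((R : ℝ) / r) ≤
      C * H ^ ((R : ℝ) / r) * (n : ℝ) ^ (R + eps) := by
    refine hJ.trans ?_
    have h2 : ((HL H).card : ℝ) ^ ((R : ℝ) / r - 1) ≤ H ^ ((R : ℝ) / r - 1) :=
      Real.rpow_le_rpow (Nat.cast_nonneg _) hcard (by linarith)
    calc ((HL H).card : ℝ) ^ ((R : ℝ) / r - 1) * ∑ h ∈ HL H, ‖S h n‖ ^ (2 * R)
        ≤ H ^ ((R : ℝ) / r - 1) * (C * H * (n : ℝ) ^ (R + eps)) :=
          mul_le_mul h2 h1 (Finset.sum_nonneg fun i _ => by positivity) (by positivity)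
      _ = C * (H ^ ((R : ℝ) / r - 1) * H ^ (1 : ℝ)) * (n : ℝ) ^ (R + eps) := by
          rw [Real.rpow_one]
          ring
      _ = C * H ^ ((R : ℝ) / r) * (n : ℝ) ^ (R + eps) := by
          rw [← Real.rpow_add (by linarith)]
          congr 3
          ring
  have hrp : 0 ≤ r / R := by positivity
  have hb2 := Real.rpow_le_rpow (by positivity) hb hrp
  rw [← Real.rpow_mul hA0, Real.mul_rpow (by positivity) (by positivity),
    Real.mul_rpow hC (by positivity), ← Real.rpow_mul hH0, ← Real.rpow_mul hn0] at hb2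
  have e1 : (R : ℝ) / r * (r / R) = 1 := by field_simp
  rw [e1, Real.rpow_one, Real.rpow_one] at hb2
  refine hb2.trans ?_
  refine mul_le_mul_of_nonneg_left ?_ (by positivity)
  refine Real.rpow_le_rpow_of_exponent_le hn1 ?_
  have h5 : r / R ≤ 1 := (div_le_one hR0).2 hrR
  have h6 : (R + eps) * (r / R) = r + eps * (r / R) := by field_simp
  rw [h6]
  nlinarith

end Pool.Agent.SL13
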