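import Pool.Agent.SL13.TowerB

/-! Tower (helper93): the square roots of distinct squarefree numbers are linearly independent over Q. -/

namespace Pool.Agent.SL13.S93

open Pool.Agent.SL13

theorem kp_prod (P : List ℕ) (A : Finset ℕ) (hA : A ⊆ P.toFinset) :
    Real.sqrt ((∏ a ∈ A, a : ℕ) : ℝ) ∈ KP P := by
  induction A using Finset.induction_on with
  | empty =>
    have := kp_rat P 1
    simpa using this
  | insert a A ha ih =>
    rw [Finset.prod_insert ha, Nat.cast_mul, Real.sqrt_mul (Nat.cast_nonneg a)]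
    refine kp_mul P (kp_sqrt P ?_) (ih fun x hx => hA (Finset.mem_insert_of_mem hx))
    exact List.mem_toFinset.1 (hA (Finset.mem_insert_self a A))

theorem kp_sum (P : List ℕ) (I : Finset (Finset ℕ)) (hI : ∀ A ∈ I, A ⊆ P.toFinset)
    (q : Finset ℕ → ℚ) : ∑ A ∈ I, (q A : ℝ) * Real.sqrt ((∏ a ∈ A, a : ℕ) : ℝ) ∈ KP P := by
  induction I using Finset.induction_on with
  | empty =>
    have := kp_rat P 0
    simpa using this
  | insert B I hB ih =>
    rw [Finset.sum_insert hB]
    exact kp_add P (kp_mul P (kp_rat P _) (kp_prod P B (hI B (Finset.mem_insert_self B I))))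
      (ih fun A hA => hI A (Finset.mem_insert_of_mem hA))

theorem indep_primes (P : List ℕ) (hP : ∀ p ∈ P, p.Prime) (hd : P.Nodup) (q : Finset ℕ → ℚ)
    (h : ∑ A ∈ P.toFinset.powerset, (q A : ℝ) * Real.sqrt ((∏ a ∈ A, a : ℕ) : ℝ) = 0) :
    ∀ A ∈ P.toFinset.powerset, q A = 0 := by
  induction P generalizing q with
  | nil =>
    intro A hA
    have hA0 : A = ∅ := by simpa using hA
    subst hA0
    simpa using h
  | cons p P ih =>
    have hpP : p ∉ P := (List.nodup_cons.1 hd).1
    have hdP : P.Nodup := (List.nodup_cons.1 hd).2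
    have hP' : ∀ r ∈ P, r.Prime := fun r hr => hP r (List.mem_cons_of_mem p hr)
    have hp : p.Prime := hP p List.mem_cons_self
    have hpF : p ∉ P.toFinset := fun h => hpP (List.mem_toFinset.1 h)
    have hnp : ∀ A ∈ P.toFinset.powerset, p ∉ A := fun A hA h =>
      hpF (Finset.mem_powerset.1 hA h)
    rw [List.toFinset_cons, Finset.sum_powerset_insert hpF] at h
    have h2 : ∑ A ∈ P.toFinset.powerset,
        (q (insert p A) : ℝ) * Real.sqrt ((∏ a ∈ insert p A, a : ℕ) : ℝ) =
        Real.sqrt p * ∑ A ∈ P.toFinset.powerset,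
          (q (insert p A) : ℝ) * Real.sqrt ((∏ a ∈ A, a : ℕ) : ℝ) := by
      rw [Finset.mul_sum]
      refine Finset.sum_congr rfl fun A hA => ?_
      rw [Finset.prod_insert (hnp A hA), Nat.cast_mul, Real.sqrt_mul (Nat.cast_nonneg p)]
      ring
    rw [h2] at h
    set U := ∑ A ∈ P.toFinset.powerset, (q A : ℝ) * Real.sqrt ((∏ a ∈ A, a : ℕ) : ℝ) with hU
    set W := ∑ A ∈ P.toFinset.powerset,
          (q (insert p A) : ℝ) * Real.sqrt ((∏ a ∈ A, a : ℕ) : ℝ) with hW
    have hUm : U ∈ KP P := kp_sum P _ (fun A hA => Finset.mem_powerset.1 hA) q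
    have hWm : W ∈ KP P := kp_sum P _ (fun A hA => Finset.mem_powerset.1 hA)
      (fun A => q (insert p A))
    have hW0 : W = 0 := by
      by_contra hne
      have hs : Real.sqrt p = -U * W⁻¹ := by
        field_simp
        linarith
      have hm : Real.sqrt p ∈ KP P := by
        rw [hs]
        exact kp_mul P (kp_neg P hUm) (kp_inv P hWm)
      refine sqrt_notMem P hP' hdP p hp.squarefree hp.one_lt.ne' ?_ hm
      intro r hr hrp
      have := (Nat.prime_dvd_prime_iff_eq (hP' r hr) hp).1 hrp
      exact hpP (this ▸ hr)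
    have hU0 : U = 0 := by
      rw [hW0, mul_zero, add_zero] at h
      exact h
    have h3 := ih hP' hdP q hU0
    have h4 := ih hP' hdP (fun A => q (insert p A)) hW0
    intro A hA
    rw [List.toFinset_cons] at hA
    by_cases hpA : p ∈ A
    · have h5 := h4 (A.erase p) (by
        rw [Finset.mem_powerset] at hA ⊢
        intro x hx
        rcases Finset.mem_insert.1 (hA (Finset.mem_of_mem_erase hx)) with h | h
        · exact absurd h (Finset.ne_of_mem_erase hx)
        · exact h)
      simpa [Finset.insert_erase hpA] using h5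
    · refine h3 A ?_
      rw [Finset.mem_powerset] at hA ⊢
      intro x hx
      rcases Finset.mem_insert.1 (hA hx) with h | h
      · exact absurd (h ▸ hx) hpA
      · exact h

theorem sqrt_indep (T : Finset ℕ) (hT : ∀ s ∈ T, Squarefree s) (q : ℕ → ℚ)
    (h : ∑ s ∈ T, (q s : ℝ) * Real.sqrt s = 0) : ∀ s ∈ T, q s = 0 := by
  classical
  set Q : Finset ℕ := T.biUnion Nat.primeFactors with hQ
  have hQp : ∀ x ∈ Q, x.Prime := by
    intro x hx
    obtain ⟨s, -, hs⟩ := Finset.mem_biUnion.1 hx
    exact Nat.prime_of_mem_primeFactors hs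
  have hQl : Q.toList.toFinset = Q := Finset.toList_toFinset Q
  have hprod : ∀ s ∈ T, ∏ a ∈ s.primeFactors, a = s := fun s hs =>
    Nat.prod_primeFactors_of_squarefree (hT s hs)
  have hinj : Set.InjOn Nat.primeFactors (T : Set ℕ) := by
    intro s hs t ht hst
    rw [← hprod s hs, ← hprod t ht]
    rw [hst]
  let q' : Finset ℕ → ℚ := fun A => if (∏ a ∈ A, a) ∈ T then q (∏ a ∈ A, a) else 0
  have hsum : ∑ A ∈ Q.toList.toFinset.powerset,
      (q' A : ℝ) * Real.sqrt ((∏ a ∈ A, a : ℕ) : ℝ) = 0 := by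
    rw [hQl, ← h]
    have e1 : ∑ s ∈ T, (q s : ℝ) * Real.sqrt s = ∑ A ∈ T.image Nat.primeFactors,
        (q' A : ℝ) * Real.sqrt ((∏ a ∈ A, a : ℕ) : ℝ) := by
      rw [Finset.sum_image hinj]
      refine Finset.sum_congr rfl fun s hs => ?_
      simp only [q', hprod s hs, if_pos hs]
    rw [e1]
    symm
    refine Finset.sum_subset ?_ ?_
    · intro A hA
      obtain ⟨s, hs, rfl⟩ := Finset.mem_image.1 hA
      rw [Finset.mem_powerset]
      exact Finset.subset_biUnion_of_mem Nat.primeFactors hs
    · intro A hA hA2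
      have hn : (∏ a ∈ A, a) ∉ T := by
        intro hmem
        refine hA2 (Finset.mem_image.2 ⟨_, hmem, ?_⟩)
        exact Nat.primeFactors_prod fun x hx => hQp x (Finset.mem_powerset.1 hA hx)
      simp only [q', if_neg hn]
      simp
  have hall := indep_primes Q.toList (fun p hp => hQp p (Finset.mem_toList.1 hp))
    (Finset.nodup_toList Q) q' hsum
  intro s hs
  have h1 := hall s.primeFactors (by
    rw [hQl, Finset.mem_powerset]
    exact Finset.subset_biUnion_of_mem Nat.primeFactors hs)
  simpa only [q', hprod s hs, if_pos hs] using h1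

end Pool.Agent.SL13.S93
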