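import Pool.Agent.SL13.TowerB
import Pool.Agent.SL13.TowerS93

/-! Tower: the square roots of distinct squarefree numbers are linearly independent over Q.

(3) for a finite set P of primes: if sum over A in powerset P of q A sqrt(prod A) is 0 then all q A
are 0. Induction on P (Finset.induction_on, Finset.sum_powerset_insert): the sum is U + sqrt p V with
U, V in KP (P.toList); V = 0 since otherwise sqrt p = -U/V in KP, against sqrt_notMem; hence U = 0 and
the induction hypothesis applies to U and V.
(4) s squarefree is the product of its set of prime factors (Nat.prod_primeFactors_of_squarefree);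
take P = union of the s.primeFactors, s in T, q' A = q (prod A) if prod A is in T, 0 otherwise
(Finset.sum_bij / sum over the image of T under primeFactors). -/

namespace Pool.Agent.SL13

theorem sqrt_indep (T : Finset ℕ) (hT : ∀ s ∈ T, Squarefree s) (q : ℕ → ℚ)
    (h : ∑ s ∈ T, (q s : ℝ) * Real.sqrt s = 0) : ∀ s ∈ T, q s = 0 :=
  S93.sqrt_indep T hT q h

end Pool.Agent.SL13
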