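import Pool.Agent.SL13.Def
import Pool.Agent.SL13.Tower

/-! Star: an integral signed sum of square roots has property (star).

Proof. a i = s i * (b i)^2 with s i squarefree, b i >= 1 (Nat.sq_mul_squarefree). Suppose a i is not
a square and a i * a j is not a square for all j other than i; then s i is not 1 and s j is not s i
for j other than i (if s j = s i the product is (s i b i b j)^2). With T = {1} union the set of all
s j: 0 = sum_j c j b j sqrt(s j) - k = sum over s in T of q s sqrt s, q s = (sum over j with s j = s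
of c j b j) - (k if s = 1 else 0) (Finset.sum_fiberwise_of_maps_to). q (s i) = c i b i is not 0,
against sqrt_indep. -/

namespace Pool.Agent.SL13

theorem star_of_int {ι : Type} [Fintype ι] (a : ι → ℕ) (ha : ∀ i, 1 ≤ a i) (c : ι → ℤ)
    (hc : ∀ i, c i ≠ 0) (k : ℤ) (h : ∑ i, (c i : ℝ) * Real.sqrt (a i) = k) : Star a := by
  classical
  intro i
  by_contra hcon
  rw [not_or] at hcon
  obtain ⟨hi, hij⟩ := hcon
  choose s b s0 b0 hb sf using fun j => Nat.sq_mul_squarefree_of_pos (ha j)
  have hsi : s i ≠ 1 := by
    intro h1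
    apply hi
    refine ⟨b i, ?_⟩
    rw [← hb i, h1]
    ring
  have hsj : ∀ j, s j = s i → j = i := by
    intro j hj
    by_contra hne
    apply hij
    refine ⟨j, hne, b i * b j * s i, ?_⟩
    rw [← hb i, ← hb j, hj]
    ring
  have hsq : ∀ j, Real.sqrt (a j) = b j * Real.sqrt (s j) := by
    intro j
    have h1 : (a j : ℝ) = (b j : ℝ) ^ 2 * s j := by
      rw [← hb j]; push_cast; ring
    rw [h1, Real.sqrt_mul (by positivity), Real.sqrt_sq (by positivity)]
  obtain ⟨T, hT⟩ : ∃ T, T = insert 1 (Finset.univ.image s) := ⟨_, rfl⟩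
  obtain ⟨q, hq⟩ : ∃ q : ℕ → ℚ, q = fun t => (∑ j ∈ Finset.univ.filter (fun j => s j = t),
      (c j : ℚ) * b j) - if t = 1 then (k : ℚ) else 0 := ⟨_, rfl⟩
  have hTsf : ∀ t ∈ T, Squarefree t := by
    intro t ht
    rw [hT, Finset.mem_insert, Finset.mem_image] at ht
    rcases ht with rfl | ⟨j, -, rfl⟩
    · exact squarefree_one
    · exact sf j
  have h0 : ∑ t ∈ T, (q t : ℝ) * Real.sqrt t = 0 := by
    have h1 : ∀ t ∈ T, (q t : ℝ) * Real.sqrt t =
        (∑ j ∈ Finset.univ.filter (fun j => s j = t), (c j : ℝ) * Real.sqrt (a j)) -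
          if t = 1 then (k : ℝ) else 0 := by
      intro t _
      rw [hq]
      push_cast
      rw [sub_mul, Finset.sum_mul]
      congr 1
      · refine Finset.sum_congr rfl fun j hj => ?_
        rw [Finset.mem_filter] at hj
        rw [hsq j, hj.2]
        ring
      · by_cases ht : t = 1
        · rw [ht]; simp
        · simp [ht]
    rw [Finset.sum_congr rfl h1, Finset.sum_sub_distrib,
      Finset.sum_fiberwise_of_maps_to (fun j _ => by
        rw [hT]; exact Finset.mem_insert_of_mem (Finset.mem_image_of_mem s (Finset.mem_univ j))),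
      Finset.sum_ite_eq' T 1, if_pos (by rw [hT]; exact Finset.mem_insert_self _ _), h, sub_self]
  have hz := sqrt_indep T hTsf q h0 (s i) (by
    rw [hT]; exact Finset.mem_insert_of_mem (Finset.mem_image_of_mem s (Finset.mem_univ i)))
  rw [hq] at hz
  simp only [if_neg hsi, sub_zero] at hz
  have hfil : Finset.univ.filter (fun j => s j = s i) = {i} := by
    ext j
    simp only [Finset.mem_filter, Finset.mem_univ, true_and, Finset.mem_singleton]
    exact ⟨hsj j, fun hh => by rw [hh]⟩
  rw [hfil, Finset.sum_singleton] at hz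
  rcases mul_eq_zero.mp hz with h2 | h2
  · exact hc i (by exact_mod_cast h2)
  · have := b0 i
    have h3 : b i = 0 := by exact_mod_cast h2
    omega

end Pool.Agent.SL13
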