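import Mathlib

/-! TowerA: closure properties of the sets KP P = Q(sqrt p : p in P) (as sets of reals).

KP [] = the rationals, KP (p :: P) = {x + y sqrt p : x, y in KP P}.
Induction on P. Inverse: if x^2 - p y^2 is not 0 then (x + y sqrt p)^(-1) = (x - y sqrt p)/(x^2 - p y^2);
if it is 0 then x = y sqrt p or x = -y sqrt p, so x + y sqrt p is 2x or 0, an element of KP P. -/

namespace Pool.Agent.SL13

/-- KP [] = Q, KP (p :: P) = KP P + KP P sqrt p. -/
def KP : List ℕ → Set ℝ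
  | [] => Set.range ((↑) : ℚ → ℝ)
  | p :: P => {z | ∃ x ∈ KP P, ∃ y ∈ KP P, z = x + y * Real.sqrt p}

theorem kp_rat (P : List ℕ) (q : ℚ) : (q : ℝ) ∈ KP P := by
  induction P with
  | nil => exact ⟨q, rfl⟩
  | cons p P ih =>
    have h0 : ((0 : ℚ) : ℝ) ∈ KP P := by
      clear ih
      induction P with
      | nil => exact ⟨0, rfl⟩
      | cons p P ih => exact ⟨_, ih, _, ih, by simp⟩
    exact ⟨_, ih, _, h0, by simp⟩

theorem kp_add (P : List ℕ) {x y : ℝ} (hx : x ∈ KP P) (hy : y ∈ KP P) : x + y ∈ KP P := by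
  induction P generalizing x y with
  | nil =>
    obtain ⟨a, rfl⟩ := hx
    obtain ⟨b, rfl⟩ := hy
    exact ⟨a + b, by push_cast; rfl⟩
  | cons p P ih =>
    obtain ⟨a, ha, b, hb, rfl⟩ := hx
    obtain ⟨c, hc, d, hd, rfl⟩ := hy
    exact ⟨a + c, ih ha hc, b + d, ih hb hd, by ring⟩

theorem kp_neg (P : List ℕ) {x : ℝ} (hx : x ∈ KP P) : -x ∈ KP P := by
  induction P generalizing x with
  | nil =>
    obtain ⟨a, rfl⟩ := hx
    exact ⟨-a, by push_cast; rfl⟩
  | cons p P ih =>
    obtain ⟨a, ha, b, hb, rfl⟩ := hx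
    exact ⟨-a, ih ha, -b, ih hb, by ring⟩

theorem kp_mul (P : List ℕ) {x y : ℝ} (hx : x ∈ KP P) (hy : y ∈ KP P) : x * y ∈ KP P := by
  induction P generalizing x y with
  | nil =>
    obtain ⟨a, rfl⟩ := hx
    obtain ⟨b, rfl⟩ := hy
    exact ⟨a * b, by push_cast; rfl⟩
  | cons p P ih =>
    obtain ⟨a, ha, b, hb, rfl⟩ := hx
    obtain ⟨c, hc, d, hd, rfl⟩ := hy
    have hp : ((p : ℚ) : ℝ) ∈ KP P := kp_rat P p
    refine ⟨a * c + ((p : ℚ) : ℝ) * (b * d), kp_add P (ih ha hc) (ih hp (ih hb hd)),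
      a * d + b * c, kp_add P (ih ha hd) (ih hb hc), ?_⟩
    have hs : Real.sqrt p * Real.sqrt p = p := Real.mul_self_sqrt (Nat.cast_nonneg p)
    have h1 : (a + b * Real.sqrt p) * (c + d * Real.sqrt p) =
        a * c + b * d * (Real.sqrt p * Real.sqrt p) + (a * d + b * c) * Real.sqrt p := by ring
    rw [h1, hs]
    push_cast
    ring

theorem kp_inv (P : List ℕ) {x : ℝ} (hx : x ∈ KP P) : x⁻¹ ∈ KP P := by
  induction P generalizing x with
  | nil =>
    obtain ⟨a, rfl⟩ := hx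
    exact ⟨a⁻¹, by push_cast; rfl⟩
  | cons p P ih =>
    obtain ⟨a, ha, b, hb, rfl⟩ := hx
    have hp : ((p : ℚ) : ℝ) ∈ KP P := kp_rat P p
    have h0 : (0 : ℝ) ∈ KP P := by simpa using kp_rat P 0
    have hs : Real.sqrt p * Real.sqrt p = p := Real.mul_self_sqrt (Nat.cast_nonneg p)
    by_cases hN : a * a - ((p : ℚ) : ℝ) * (b * b) = 0
    · have hN' : (a - b * Real.sqrt p) * (a + b * Real.sqrt p) = 0 := by
        have h1 : (a - b * Real.sqrt p) * (a + b * Real.sqrt p) =
            a * a - (Real.sqrt p * Real.sqrt p) * (b * b) := by ring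
        rw [h1, hs]
        simpa using hN
      rcases mul_eq_zero.1 hN' with h | h
      · have h2 : a + b * Real.sqrt p = a + a := by linarith
        rw [h2]
        exact ⟨(a + a)⁻¹, ih (kp_add P ha ha), 0, h0, by ring⟩
      · rw [h, inv_zero]
        exact ⟨0, h0, 0, h0, by ring⟩
    · have hNm : a * a - ((p : ℚ) : ℝ) * (b * b) ∈ KP P := by
        rw [sub_eq_add_neg]
        exact kp_add P (kp_mul P ha ha) (kp_neg P (kp_mul P hp (kp_mul P hb hb)))
      have hI := ih hNm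
      refine ⟨a * (a * a - ((p : ℚ) : ℝ) * (b * b))⁻¹, kp_mul P ha hI,
        -b * (a * a - ((p : ℚ) : ℝ) * (b * b))⁻¹, kp_mul P (kp_neg P hb) hI, ?_⟩
      have h3 : (a - b * Real.sqrt p) * (a + b * Real.sqrt p) =
          a * a - ((p : ℚ) : ℝ) * (b * b) := by
        have h1 : (a - b * Real.sqrt p) * (a + b * Real.sqrt p) =
            a * a - (Real.sqrt p * Real.sqrt p) * (b * b) := by ring
        rw [h1, hs]
        push_cast
        ring
      have h4 : a + b * Real.sqrt p ≠ 0 := by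
        intro h
        rw [h, mul_zero] at h3
        exact hN h3.symm
      have h5 : a * (a * a - ((p : ℚ) : ℝ) * (b * b))⁻¹ +
          -b * (a * a - ((p : ℚ) : ℝ) * (b * b))⁻¹ * Real.sqrt p =
          (a - b * Real.sqrt p) * (a * a - ((p : ℚ) : ℝ) * (b * b))⁻¹ := by ring
      rw [h5, inv_eq_iff_eq_inv, mul_inv, inv_inv, ← h3]
      have h6 : a - b * Real.sqrt p ≠ 0 := by
        intro h
        rw [h, zero_mul] at h3
        exact hN h3.symm
      field_simp

theorem kp_sqrt (P : List ℕ) {p : ℕ} (hp : p ∈ P) : Real.sqrt p ∈ KP P := by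
  induction P with
  | nil => exact absurd hp (List.not_mem_nil)
  | cons q P ih =>
    have h0 : (0 : ℝ) ∈ KP P := by simpa using kp_rat P 0
    have h1 : (1 : ℝ) ∈ KP P := by simpa using kp_rat P 1
    rcases List.mem_cons.1 hp with h | h
    · subst h
      exact ⟨0, h0, 1, h1, by ring⟩
    · exact ⟨_, ih h, 0, h0, by ring⟩

end Pool.Agent.SL13
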