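import Pool.Agent.SL13.TowerA

/-! TowerB: the square root of a squarefree m > 1 prime to P is not in KP P.

Induction on P. [] : sqrt m rational => m a square (irrational_sqrt_natCast_iff or
Nat.Prime style) => m = 1 since m is squarefree. p :: P: sqrt m = x + y sqrt p,
square: m = x^2 + p y^2 + 2 x y sqrt p; if x y is not 0 then sqrt p = (m - x^2 - p y^2)/(2 x y) in KP P,
against the induction hypothesis for m := p (p is squarefree, not 1, distinct from the primes in P);
if y = 0: sqrt m in KP P, against the hypothesis for m; if x = 0: sqrt (m p) = sqrt m sqrt p = y p in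
KP P, against the hypothesis for m p (squarefree since p does not divide m; a prime of P dividing m p
divides m or equals p). -/

namespace Pool.Agent.SL13

theorem sqrt_notMem (P : List ℕ) (hP : ∀ p ∈ P, p.Prime) (hd : P.Nodup) (m : ℕ)
    (hm : Squarefree m) (hm1 : m ≠ 1) (hc : ∀ p ∈ P, ¬ p ∣ m) : Real.sqrt m ∉ KP P := by
  induction P generalizing m with
  | nil =>
    rintro ⟨q, hq⟩
    have hirr : Irrational (Real.sqrt (m : ℝ)) := by
      rw [irrational_sqrt_natCast_iff]
      rintro ⟨r, hr⟩
      have h1 : IsUnit r := hm r (by rw [hr])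
      rw [Nat.isUnit_iff] at h1
      rw [h1] at hr
      exact hm1 hr
    exact hirr ⟨q, hq⟩
  | cons p P ih =>
    have hpp : p.Prime := hP p (by simp)
    have hPP : ∀ q ∈ P, q.Prime := fun q hq => hP q (by simp [hq])
    obtain ⟨hpP, hdP⟩ := List.nodup_cons.1 hd
    have hqp : ∀ q ∈ P, ¬ q ∣ p := by
      intro q hq h1
      have h2 := (Nat.prime_dvd_prime_iff_eq (hPP q hq) hpp).1 h1
      exact hpP (h2 ▸ hq)
    have hcP : ∀ q ∈ P, ¬ q ∣ m := fun q hq => hc q (by simp [hq])
    have hpm : ¬ p ∣ m := hc p (by simp)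
    rintro ⟨x, hx, y, hy, hxy⟩
    by_cases hy0 : y = 0
    · rw [hy0, zero_mul, add_zero] at hxy
      exact ih hPP hdP m hm hm1 hcP (hxy ▸ hx)
    by_cases hx0 : x = 0
    · rw [hx0, zero_add] at hxy
      have h1 : Real.sqrt ((m * p : ℕ) : ℝ) = y * (p : ℝ) := by
        rw [Nat.cast_mul, Real.sqrt_mul (Nat.cast_nonneg m), hxy, mul_assoc,
          Real.mul_self_sqrt (Nat.cast_nonneg p)]
      have h2 : Squarefree (m * p) := by
        rw [Nat.squarefree_mul ((Nat.Prime.coprime_iff_not_dvd hpp).2 hpm).symm]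
        exact ⟨hm, hpp.prime.squarefree⟩
      have h3 : m * p ≠ 1 := by
        intro h4
        exact hpp.one_lt.ne' (Nat.eq_one_of_mul_eq_one_left h4)
      refine ih hPP hdP (m * p) h2 h3 ?_ ?_
      · intro q hq h4
        rcases (Nat.Prime.dvd_mul (hPP q hq)).1 h4 with h5 | h5
        · exact hcP q hq h5
        · exact hqp q hq h5
      · rw [h1]
        have h5 := kp_rat P (p : ℚ)
        rw [Rat.cast_natCast] at h5
        exact kp_mul P hy h5
    · refine ih hPP hdP p hpp.prime.squarefree hpp.one_lt.ne' hqp ?_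
      have h1 : (m : ℝ) = (x + y * Real.sqrt p) * (x + y * Real.sqrt p) := by
        rw [← hxy, Real.mul_self_sqrt (Nat.cast_nonneg m)]
      have h2 : Real.sqrt p * Real.sqrt p = (p : ℝ) := Real.mul_self_sqrt (Nat.cast_nonneg p)
      have h3 : Real.sqrt p = ((m : ℝ) + -(x * x + (p : ℝ) * (y * y))) * ((2 : ℝ) * (x * y))⁻¹ := by
        have h4 : (2 : ℝ) * (x * y) ≠ 0 := by positivity
        rw [eq_mul_inv_iff_mul_eq₀ h4]
        linear_combination (-1 : ℝ) * h1 - y * y * h2
      rw [h3]
      have hmr := kp_rat P (m : ℚ)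
      rw [Rat.cast_natCast] at hmr
      have hpr := kp_rat P (p : ℚ)
      rw [Rat.cast_natCast] at hpr
      have h2r := kp_rat P (2 : ℚ)
      rw [Rat.cast_ofNat] at h2r
      exact kp_mul P (kp_add P hmr (kp_neg P (kp_add P (kp_mul P hx hx)
        (kp_mul P hpr (kp_mul P hy hy))))) (kp_inv P (kp_mul P h2r (kp_mul P hx hy)))

end Pool.Agent.SL13
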